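import Pool.Agent.Work.MP_05e9ba_an.TriExt
import Mathlib.Analysis.CStarAlgebra.ApproximateUnit

/-!
If the triangle has the `A`-extension property then `A` is commutative.
-/

namespace Pool.Agent.Work.MP_05e9ba_an

open Matrix Filter Topology

section Unital

variable {B : Type*} [CStarAlgebra B]

lemma transfer {m : Type} [Fintype m] (x y : m → B) (h t : B)
    (hxx : ip x x = star h * h) (hxy : ip x y = star h * (h * t))
    (hyx : ip y x = star (h * t) * h) (hyy : ip y y = star (h * t) * (h * t)) (r : m) :
    y r = x r * t := by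
  have key : ∑ r, star (y r - x r * t) * (y r - x r * t) = 0 := by
    have e : ∑ r, star (y r - x r * t) * (y r - x r * t) =
        ip y y - ip y x * t - star t * ip x y + star t * ip x x * t := by
      simp only [ip, Finset.sum_mul, Finset.mul_sum, ← Finset.sum_sub_distrib,
        ← Finset.sum_add_distrib]
      refine Finset.sum_congr rfl fun r _ => ?_
      simp only [star_sub, star_mul]
      noncomm_ring
    rw [e, hxx, hxy, hyx, hyy]
    simp only [star_mul]
    noncomm_ring
  exact sub_eq_zero.1 (eq_zero_of_sum_star_mul_self (fun r => y r - x r * t) key r)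

/-- For self-adjoint `s`, the element `1 - i s` is invertible. -/
lemma isUnit_one_sub_I_smul {s : B} (hs : IsSelfAdjoint s) : IsUnit (1 - Complex.I • s) := by
  by_contra hu
  have h1 : (-Complex.I) ∈ spectrum ℂ s := by
    rw [spectrum.mem_iff]
    intro h
    apply hu
    have e : 1 - Complex.I • s = Complex.I • (algebraMap ℂ B (-Complex.I) - s) := by
      rw [smul_sub, Algebra.algebraMap_eq_smul_one, smul_smul]
      simp
    rw [e]
    exact IsUnit.smul (Units.mk0 Complex.I Complex.I_ne_zero) h
  have h2 := hs.mem_spectrum_eq_re h1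
  have h3 := congrArg Complex.im h2
  simp at h3

/-- The Cayley transform data attached to `s = h x h`. -/
lemma exists_cayley {h x : B} (hh : IsSelfAdjoint h) (hx : IsSelfAdjoint x) :
    ∃ R t w : B, R * (1 - Complex.I • (h * x * h)) = 1 ∧ (1 - Complex.I • (h * x * h)) * R = 1 ∧
      h * t = (2 * R - 1) * h ∧ star (h * t) * (h * t) = star h * h ∧ R = 1 + w * h := by
  have hs : IsSelfAdjoint (h * x * h) := by
    rw [IsSelfAdjoint, star_mul, star_mul, hh.star_eq, hx.star_eq, mul_assoc]
  obtain ⟨u, hu⟩ := isUnit_one_sub_I_smul hs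
  set s := h * x * h with hsdef
  set R : B := ↑u⁻¹ with hR
  have h1 : R * (1 - Complex.I • s) = 1 := by rw [← hu, hR]; simp
  have h2 : (1 - Complex.I • s) * R = 1 := by rw [← hu, hR]; simp
  have h1' : R = 1 + Complex.I • (R * s) := by
    rw [mul_sub, mul_one, mul_smul_comm] at h1
    exact (sub_eq_iff_eq_add.1 h1)
  have h2' : R = 1 + Complex.I • (s * R) := by
    rw [sub_mul, one_mul, smul_mul_assoc] at h2
    exact (sub_eq_iff_eq_add.1 h2)
  have h3 : (1 + Complex.I • s) * star R = 1 := by
    have := congrArg star h1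
    simpa [star_mul, star_smul, hs.star_eq] using this
  have h4 : star R * (1 + Complex.I • s) = 1 := by
    have := congrArg star h2
    simpa [star_mul, star_smul, hs.star_eq] using this
  -- `R + R* = 2 R* R`
  have h5 : star R * R * 2 = R + star R := by
    have e : (2 : B) = (1 - Complex.I • s) + (1 + Complex.I • s) := by
      rw [← one_add_one_eq_two]; abel
    calc star R * R * 2 = star R * (2 * R) := by
          rw [mul_assoc, mul_two, two_mul]
      _ = star R * ((1 - Complex.I • s) * R) + (star R * (1 + Complex.I • s)) * R := by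
          rw [e]; noncomm_ring
      _ = R + star R := by rw [h2, h4]; simp [add_comm]
  have hun : star (2 * R - 1) * (2 * R - 1) = 1 := by
    have e : star (2 * R - 1) * (2 * R - 1) =
        (star R * R * 2) * 2 - (R + star R) * 2 + 1 := by
      simp only [star_sub, star_mul, star_one, star_ofNat]
      simp only [mul_two, two_mul]
      noncomm_ring
    rw [e, h5]; simp
  have ht : h * (1 + (2 * Complex.I) • (x * h * R * h)) = (2 * R - 1) * h := by
    have e : (2 * R - 1) * h = h + (2 * Complex.I) • (s * R * h) := by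
      have : 2 * R - 1 = 1 + (2 * Complex.I) • (s * R) := by
        rw [mul_smul, two_smul, two_mul]
        nth_rewrite 1 [h2']
        nth_rewrite 2 [h2']
        abel
      rw [this, add_mul, one_mul, smul_mul_assoc]
    rw [e, mul_add, mul_one, mul_smul_comm, hsdef]
    congr 2
    noncomm_ring
  refine ⟨R, 1 + (2 * Complex.I) • (x * h * R * h), Complex.I • (R * h * x), h1, h2, ht, ?_, ?_⟩
  · rw [ht, star_mul, mul_assoc, ← mul_assoc (star (2 * R - 1)), hun, one_mul]
  · rw [smul_mul_assoc]
    nth_rewrite 1 [h1']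
    rw [hsdef]
    congr 2
    noncomm_ring

lemma commute_of_columns {m : Type} [Fintype m] {h x y : B} (hh : IsSelfAdjoint h)
    {R t w R' t' w' : B}
    (h1 : R * (1 - Complex.I • (h * x * h)) = 1) (h2 : (1 - Complex.I • (h * x * h)) * R = 1)
    (h3 : h * t = (2 * R - 1) * h) (h5 : R = 1 + w * h)
    (h1' : R' * (1 - Complex.I • (h * y * h)) = 1) (h2' : (1 - Complex.I • (h * y * h)) * R' = 1)
    (h3' : h * t' = (2 * R' - 1) * h) (h5' : R' = 1 + w' * h)
    (x0 : m → B) (hx0 : ip x0 x0 = star h * h)
    (hc : ∀ r, x0 r * t' * t = x0 r * t * t') :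
    (h * x * h) * (h * y * h) = (h * y * h) * (h * x * h) := by
  set c := t' * t - t * t' with hcdef
  have e1 : star (h * c) * (h * c) = 0 := by
    have : star (h * c) * (h * c) = star c * ip x0 x0 * c := by
      rw [hx0, star_mul]; noncomm_ring
    rw [this, ip, Finset.mul_sum, Finset.sum_mul]
    refine Finset.sum_eq_zero fun r _ => ?_
    have : x0 r * c = 0 := by
      rw [hcdef, mul_sub, ← mul_assoc, ← mul_assoc, hc r, sub_self]
    rw [mul_assoc, mul_assoc, this, mul_zero, mul_zero]
  have e2 : h * c = 0 := (CStarRing.star_mul_self_eq_zero_iff _).1 e1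
  have e3 : (R' * R - R * R') * h = 0 := by
    have : h * c = (4 : ℂ) • ((R' * R - R * R') * h) := by
      rw [hcdef, mul_sub, ← mul_assoc, ← mul_assoc, h3, h3', mul_assoc, mul_assoc, h3, h3']
      have e4 : ∀ z : B, (4 : ℂ) • z = z + z + z + z := fun z => by
        rw [show (4 : ℂ) = 1 + 1 + 1 + 1 by norm_num]
        simp only [add_smul, one_smul]
      rw [e4]
      simp only [two_mul]
      noncomm_ring
    rw [e2] at this
    exact (smul_eq_zero.1 this.symm).resolve_left (by norm_num)
  have e4 : R' * R - R * R' = (w' * h * w - w * h * w') * h := by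
    nth_rewrite 1 [h5, h5']
    nth_rewrite 1 [h5, h5']
    noncomm_ring
  have e5 : R' * R - R * R' = 0 := by
    rw [← CStarRing.mul_star_self_eq_zero_iff]
    nth_rewrite 2 [e4]
    rw [star_mul, hh.star_eq, ← mul_assoc, e3, zero_mul]
  have e6 : R' * R = R * R' := sub_eq_zero.1 e5
  set P := 1 - Complex.I • (h * x * h) with hP
  set Q := 1 - Complex.I • (h * y * h) with hQ
  have e7 : P * Q = Q * P := by
    calc P * Q = P * Q * ((R * R') * (Q * P)) := by
          rw [mul_assoc R, ← mul_assoc R', h1', one_mul, h1, mul_one]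
      _ = P * (Q * R') * R * (Q * P) := by rw [← e6]; noncomm_ring
      _ = Q * P := by rw [h2', mul_one, h2, one_mul]
  have e8 : P * Q - Q * P = (h * y * h) * (h * x * h) - (h * x * h) * (h * y * h) := by
    rw [hP, hQ]
    simp only [mul_sub, sub_mul, one_mul, mul_one, smul_mul_smul_comm, Complex.I_mul_I,
      neg_smul, one_smul]
    abel
  rw [e7, sub_self] at e8
  exact (sub_eq_zero.1 e8.symm).symm

end Unital

section NonUnital

variable {A : Type*} [NonUnitalCStarAlgebra A]

open Unitization in
lemma ip_inr {m : Type} [Fintype m] (x y : m → A) :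
    ip (fun r => (x r : Unitization ℂ A)) (fun r => (y r : Unitization ℂ A)) =
      ((ip x y : A) : Unitization ℂ A) := by
  simp only [ip]
  rw [show ((∑ r, star (x r) * y r : A) : Unitization ℂ A) =
    Unitization.inrNonUnitalStarAlgHom ℂ A (∑ r, star (x r) * y r) from rfl, map_sum]
  simp

lemma compress_commute (hA : ExtensionProperty A Ltri) {h x y : A} (hh : IsSelfAdjoint h)
    (hx : IsSelfAdjoint x) (hy : IsSelfAdjoint y) :
    (h * x * h) * (h * y * h) = (h * y * h) * (h * x * h) := by
  have hh' : IsSelfAdjoint (h : Unitization ℂ A) := hh.inr ℂ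
  have hx' : IsSelfAdjoint (x : Unitization ℂ A) := hx.inr ℂ
  have hy' : IsSelfAdjoint (y : Unitization ℂ A) := hy.inr ℂ
  obtain ⟨R, t, w, h1, h2, h3, h4, h5⟩ := exists_cayley hh' hx'
  obtain ⟨R', t', w', h1', h2', h3', h4', h5'⟩ := exists_cayley hh' hy'
  have lift : ∀ z : Unitization ℂ A, ((((h : Unitization ℂ A) * z).snd : A) : Unitization ℂ A) =
      (h : Unitization ℂ A) * z := fun z => by
    ext <;> simp
  let W : Fin 3 → A := ![h, ((h : Unitization ℂ A) * t).snd, ((h : Unitization ℂ A) * t').snd]
  have W0 : ((W 0 : A) : Unitization ℂ A) = h := rfl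
  have W1 : ((W 1 : A) : Unitization ℂ A) = h * t := lift t
  have W2 : ((W 2 : A) : Unitization ℂ A) = h * t' := lift t'
  have inrG : ∀ i j, ((star (W i) * W j : A) : Unitization ℂ A) =
      star (W i : Unitization ℂ A) * (W j : Unitization ℂ A) := fun i j => by simp
  have g1 : star (W 1) * W 1 = star (W 0) * W 0 := by
    apply Unitization.inr_injective (R := ℂ)
    rw [inrG, inrG, W0, W1, h4]
  have g2 : star (W 2) * W 2 = star (W 0) * W 0 := by
    apply Unitization.inr_injective (R := ℂ)
    rw [inrG, inrG, W0, W2, h4']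
  obtain ⟨x0, x1, x2, x3, x4, H1, H2, H3, H4⟩ := triExt hA (fun _ : Unit => W)
    (fun i j => star (W i) * W j) (fun i j => by simp) g1 g2
  have k00 : ip x0 x0 = star (W 0) * W 0 := H1 0 0
  have k01 : ip x0 x1 = star (W 0) * W 1 := H1 0 1
  have k10 : ip x1 x0 = star (W 1) * W 0 := H1 1 0
  have k11 : ip x1 x1 = star (W 1) * W 1 := H1 1 1
  have k02 : ip x0 x2 = star (W 0) * W 2 := H1 0 2
  have k20 : ip x2 x0 = star (W 2) * W 0 := H1 2 0
  have k22 : ip x2 x2 = star (W 2) * W 2 := H1 2 2
  have l22 : ip x2 x2 = star (W 0) * W 0 := H2 0 0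
  have l23 : ip x2 x3 = star (W 0) * W 1 := H2 0 1
  have l32 : ip x3 x2 = star (W 1) * W 0 := H2 1 0
  have l33 : ip x3 x3 = star (W 1) * W 1 := H2 1 1
  have r1 := transfer (fun r => (x0 r : Unitization ℂ A)) (fun r => (x1 r : Unitization ℂ A))
    h t (by rw [ip_inr, k00, inrG, W0]) (by rw [ip_inr, k01, inrG, W0, W1])
    (by rw [ip_inr, k10, inrG, W0, W1]) (by rw [ip_inr, k11, inrG, W1])
  have r2 := transfer (fun r => (x0 r : Unitization ℂ A)) (fun r => (x2 r : Unitization ℂ A))
    h t' (by rw [ip_inr, k00, inrG, W0]) (by rw [ip_inr, k02, inrG, W0, W2])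
    (by rw [ip_inr, k20, inrG, W0, W2]) (by rw [ip_inr, k22, inrG, W2])
  have r3 := transfer (fun r => (x2 r : Unitization ℂ A)) (fun r => (x3 r : Unitization ℂ A))
    h t (by rw [ip_inr, l22, inrG, W0]) (by rw [ip_inr, l23, inrG, W0, W1])
    (by rw [ip_inr, l32, inrG, W0, W1]) (by rw [ip_inr, l33, inrG, W1])
  have r4 := transfer (fun r => (x1 r : Unitization ℂ A)) (fun r => (x3 r : Unitization ℂ A))
    h t' (by rw [ip_inr, k11, g1, inrG, W0]) (by rw [ip_inr, H3, inrG, W0, W2])
    (by rw [ip_inr, H4, inrG, W0, W2]) (by rw [ip_inr, l33, g1, ← g2, inrG, W2])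
  have key := commute_of_columns (x := (x : Unitization ℂ A)) (y := (y : Unitization ℂ A)) hh'
    h1 h2 h3 h5 h1' h2' h3' h5' (fun r => (x0 r : Unitization ℂ A))
    (by rw [ip_inr, k00, inrG, W0]) (fun r => by
      have a1 := r1 r
      have a2 := r2 r
      have a3 := r3 r
      have a4 := r4 r
      rw [← a2, ← a3, ← a1, ← a4])
  apply Unitization.inr_injective (R := ℂ)
  simpa using key

lemma commute_of_selfAdjoint (hA : ExtensionProperty A Ltri) {x y : A}
    (hx : IsSelfAdjoint x) (hy : IsSelfAdjoint y) : x * y = y * x := by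
  let _ : PartialOrder A := CStarAlgebra.spectralOrder A
  have : StarOrderedRing A := CStarAlgebra.spectralOrderedRing A
  have hl := CStarAlgebra.increasingApproximateUnit A
  have lim : ∀ z : A, Tendsto (fun h : A => h * z * h) (CStarAlgebra.approximateUnit A) (𝓝 z) := by
    intro z
    have t1 : Tendsto (fun h : A => h * z) (CStarAlgebra.approximateUnit A) (𝓝 z) :=
      hl.tendsto_mul_right z
    have t2 : Tendsto (fun h : A => z * h) (CStarAlgebra.approximateUnit A) (𝓝 z) :=
      hl.tendsto_mul_left z
    have t3 : Tendsto (fun h : A => (h * z - z) * h) (CStarAlgebra.approximateUnit A) (𝓝 0) := by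
      refine squeeze_zero_norm' (a := fun h : A => ‖h * z - z‖) ?_ ?_
      · filter_upwards [hl.eventually_norm] with h hn
        calc ‖(h * z - z) * h‖ ≤ ‖h * z - z‖ * ‖h‖ := norm_mul_le _ _
          _ ≤ ‖h * z - z‖ * 1 := by gcongr
          _ = _ := mul_one _
      · exact tendsto_iff_norm_sub_tendsto_zero.1 t1
    have := t3.add t2
    simp only [zero_add] at this
    refine this.congr fun h => ?_
    noncomm_ring
  have l1 := (lim x).mul (lim y)
  have l2 := (lim y).mul (lim x)
  refine tendsto_nhds_unique_of_eventuallyEq l1 l2 ?_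
  filter_upwards [hl.eventually_isSelfAdjoint] with h hh
  exact compress_commute hA hh hx hy

/-- The extension property of the triangle forces commutativity. -/
lemma comm_of_ext (hA : ExtensionProperty A Ltri) (x y : A) : x * y = y * x := by
  have hx := realPart_add_I_smul_imaginaryPart x
  have hy := realPart_add_I_smul_imaginaryPart y
  have c := fun (a b : selfAdjoint A) => commute_of_selfAdjoint hA a.2 b.2
  rw [← hx, ← hy]
  simp only [mul_add, add_mul, smul_mul_assoc, mul_smul_comm]
  rw [c (realPart x) (realPart y), c (realPart x) (imaginaryPart y),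
    c (imaginaryPart x) (realPart y), c (imaginaryPart x) (imaginaryPart y)]
  simp only [smul_add]
  abel

end NonUnital

end Pool.Agent.Work.MP_05e9ba_an
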