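import Pool.Agent.Work.MP_05e9ba_an.TriExt
import Mathlib.Analysis.InnerProductSpace.PiL2
import Mathlib.LinearAlgebra.FiniteDimensional.Lemmas

/-!
The triangle has the scalar extension property, and `{0, 1, 3}` does not.
-/

namespace Pool.Agent.Work.MP_05e9ba_an

open Matrix ComplexConjugate

/-- A three by three matrix that extends to a positive definite function on `Z^2`. -/
def Dec (G : Fin 3 → Fin 3 → ℂ) : Prop :=
  ∃ b : (Fin 2 → ℤ) → ℂ, (∀ i j, b (p3 i - p3 j) = G i j) ∧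
    ∀ K : Finset (Fin 2 → ℤ), IsPos (Matrix.of fun i j : K => b (i.1 - j.1))

lemma Dec.add {G H : Fin 3 → Fin 3 → ℂ} (hG : Dec G) (hH : Dec H) :
    Dec (fun i j => G i j + H i j) := by
  obtain ⟨b, hb, hb'⟩ := hG
  obtain ⟨c, hc, hc'⟩ := hH
  exact ⟨fun l => b l + c l, fun i j => by simp only [hb, hc], fun K => (hb' K).add (hc' K)⟩

lemma dec_rank_one (y : Fin 3 → ℂ) (h1 : Complex.normSq (y 1) = Complex.normSq (y 0))
    (h2 : Complex.normSq (y 2) = Complex.normSq (y 0)) : Dec (fun i j => conj (y i) * y j) := by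
  by_cases h0 : y 0 = 0
  · have e1 : y 1 = 0 := by simpa [h0] using h1
    have e2 : y 2 = 0 := by simpa [h0] using h2
    refine ⟨0, fun i j => ?_, fun K => isPos_zero⟩
    fin_cases i <;> simp [h0, e1, e2]
  have hn : Complex.normSq (y 0) ≠ 0 := by simpa using h0
  have unim : ∀ u : ℂ, Complex.normSq u = Complex.normSq (y 0) →
      u / y 0 ≠ 0 ∧ conj (u / y 0) = (u / y 0)⁻¹ := fun u hu => by
    have h3 : Complex.normSq (u / y 0) = 1 := by rw [map_div₀, hu, div_self hn]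
    refine ⟨fun h => by simp [h] at h3, ?_⟩
    rw [Complex.inv_def, h3]
    simp
  obtain ⟨hz0, hz⟩ := unim _ h1
  obtain ⟨hw0, hw⟩ := unim _ h2
  set z := y 1 / y 0 with hzdef
  set w := y 2 / y 0 with hwdef
  let χ : (Fin 2 → ℤ) → ℂ := fun l => z ^ (l 0) * w ^ (l 1)
  have hχ : ∀ i j : Fin 2 → ℤ, conj (y 0) * y 0 * χ (-(i - j)) =
      conj (y 0 * χ i) * (y 0 * χ j) := fun i j => by
    simp only [χ, map_mul, map_zpow₀, hz, hw, neg_sub, Pi.sub_apply, zpow_sub₀ hz0,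
      zpow_sub₀ hw0, _root_.inv_zpow]
    field_simp
  have hy : ∀ i, y 0 * χ (p3 i) = y i := fun i => by
    fin_cases i
    · simp [χ, p3]
    · simp [χ, p3, hzdef]; field_simp
    · simp [χ, p3, hwdef]; field_simp
  refine ⟨fun l => conj (y 0) * y 0 * χ (-l), fun i j => ?_, fun K => ?_⟩
  · simp only [hχ, hy]
  · refine isPos_of_gram (fun (_ : Unit) (i : K) => y 0 * χ i.1) _ fun i j => ?_
    simp only [of_apply, hχ]
    simp

lemma exists_orth (d e : Fin 3 → ℝ) : ∃ m : Fin 3 → ℝ, m ≠ 0 ∧ 0 ≤ m 2 ∧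
    d 0 * m 0 + d 1 * m 1 + d 2 * m 2 = 0 ∧ e 0 * m 0 + e 1 * m 1 + e 2 * m 2 = 0 := by
  let f : (Fin 3 → ℝ) →ₗ[ℝ] (Fin 2 → ℝ) := Matrix.mulVecLin (Matrix.of ![d, e])
  have hf : LinearMap.ker f ≠ ⊥ := f.ker_ne_bot_of_finrank_lt (by simp)
  obtain ⟨m, hm, hm0⟩ := Submodule.exists_mem_ne_zero_of_ne_bot hf
  have h0 := congrFun (LinearMap.mem_ker.1 hm) 0
  have h1 := congrFun (LinearMap.mem_ker.1 hm) 1
  simp [f, Matrix.mulVec, dotProduct, Fin.sum_univ_three] at h0 h1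
  rcases le_total 0 (m 2) with h | h
  · exact ⟨m, hm0, h, h0, h1⟩
  · refine ⟨-m, neg_ne_zero.2 hm0, by simpa using h, ?_, ?_⟩
    · simp only [Pi.neg_apply]; linarith
    · simp only [Pi.neg_apply]; linarith

lemma dec_two (x y : Fin 3 → ℂ)
    (h1 : Complex.normSq (x 1) + Complex.normSq (y 1) = Complex.normSq (x 0) + Complex.normSq (y 0))
    (h2 : Complex.normSq (x 2) + Complex.normSq (y 2) = Complex.normSq (x 0) + Complex.normSq (y 0)) :
    Dec (fun i j => conj (x i) * x j + conj (y i) * y j) := by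
  let n : Fin 3 → Fin 3 → ℝ := fun i =>
    ![2 * (x i * conj (y i)).re, 2 * (x i * conj (y i)).im,
      Complex.normSq (x i) - Complex.normSq (y i)]
  obtain ⟨m, hm0, hm2, hd, he⟩ := exists_orth (n 1 - n 0) (n 2 - n 0)
  set r := √(m 0 ^ 2 + m 1 ^ 2 + m 2 ^ 2) with hr
  have hpos : 0 < m 0 ^ 2 + m 1 ^ 2 + m 2 ^ 2 := by
    by_contra hc
    apply hm0
    have a0 : m 0 = 0 := by nlinarith [sq_nonneg (m 0), sq_nonneg (m 1), sq_nonneg (m 2)]
    have a1 : m 1 = 0 := by nlinarith [sq_nonneg (m 0), sq_nonneg (m 1), sq_nonneg (m 2)]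
    have a2 : m 2 = 0 := by nlinarith [sq_nonneg (m 0), sq_nonneg (m 1), sq_nonneg (m 2)]
    ext i
    fin_cases i <;> simp [a0, a1, a2]
  have hr0 : 0 < r := Real.sqrt_pos.2 hpos
  have hr2 : r ^ 2 = m 0 ^ 2 + m 1 ^ 2 + m 2 ^ 2 := Real.sq_sqrt hpos.le
  set N := √(2 * r * (r + m 2)) with hN
  have hNpos : 0 < 2 * r * (r + m 2) := by positivity
  have hN0 : 0 < N := Real.sqrt_pos.2 hNpos
  have hN2 : N ^ 2 = 2 * r * (r + m 2) := Real.sq_sqrt hNpos.le
  let a : ℂ := ((r + m 2 : ℝ) : ℂ)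
  let b : ℂ := ⟨m 0, m 1⟩
  let α : Fin 3 → ℂ := fun i => (a * x i + b * y i) / N
  let β : Fin 3 → ℂ := fun i => (-conj b * x i + a * y i) / N
  have hab : conj a * a + conj b * b = (N : ℂ) ^ 2 := by
    have : ((N : ℂ)) ^ 2 = ((N ^ 2 : ℝ) : ℂ) := by push_cast; ring
    rw [this, hN2]
    apply Complex.ext
    · simp [a, b]; (clear * - hr2; nlinarith)
    · simp [a, b]; ring
  have hN' : (N : ℂ) ≠ 0 := by exact_mod_cast hN0.ne'
  have ha : conj a = a := Complex.conj_ofReal _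
  have hsum : ∀ i j, conj (α i) * α j + conj (β i) * β j = conj (x i) * x j + conj (y i) * y j := by
    intro i j
    simp only [α, β, map_div₀, map_add, map_mul, map_neg, Complex.conj_conj, Complex.conj_ofReal]
    field_simp
    rw [← hab, ha]
    ring
  have hα : ∀ i, Complex.normSq (α i) * N ^ 2 = (r + m 2) *
      (r * (Complex.normSq (x i) + Complex.normSq (y i)) +
        (n i 0 * m 0 + n i 1 * m 1 + n i 2 * m 2)) := by
    intro i
    have e1 : Complex.normSq (α i) * N ^ 2 = Complex.normSq (a * x i + b * y i) := by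
      simp only [α, map_div₀, Complex.normSq_ofReal]
      field_simp
    rw [e1]
    simp only [n, a, b, Complex.normSq_apply, Complex.add_re, Complex.add_im, Complex.mul_re,
      Complex.mul_im, Complex.ofReal_re, Complex.ofReal_im, Complex.conj_re, Complex.conj_im,
      Matrix.cons_val_zero, Matrix.cons_val_one, Matrix.cons_val_two, Matrix.head_cons,
      Matrix.tail_cons]
    linear_combination (-((y i).re ^ 2 + (y i).im ^ 2)) * hr2
  have hN3 : N ^ 2 ≠ 0 := by positivity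
  simp only [Pi.sub_apply] at hd he
  have hα1 : Complex.normSq (α 1) = Complex.normSq (α 0) := by
    apply mul_right_cancel₀ hN3
    rw [hα, hα, h1]
    congr 1
    linarith
  have hα2 : Complex.normSq (α 2) = Complex.normSq (α 0) := by
    apply mul_right_cancel₀ hN3
    rw [hα, hα, h2]
    congr 1
    linarith
  have hβ : ∀ i, Complex.normSq (α i) + Complex.normSq (β i) =
      Complex.normSq (x i) + Complex.normSq (y i) := fun i => by
    have := hsum i i
    simp only [← Complex.normSq_eq_conj_mul_self] at this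
    exact_mod_cast this
  have := (dec_rank_one α hα1 hα2).add (dec_rank_one β (by linarith [hβ 0, hβ 1])
    (by linarith [hβ 0, hβ 2]))
  simpa only [hsum] using this

lemma exists_midpoint (q : ℂ) (ρ : ℝ) (h : Complex.normSq q ≤ ρ) :
    ∃ q₁ q₂ : ℂ, Complex.normSq q₁ = ρ ∧ Complex.normSq q₂ = ρ ∧ q₁ + q₂ = 2 * q := by
  by_cases hq : q = 0
  · subst hq
    have h0 : 0 ≤ ρ := by simpa using h
    refine ⟨(√ρ : ℝ), -(√ρ : ℝ), ?_, ?_, by simp⟩
    · rw [Complex.normSq_ofReal, Real.mul_self_sqrt h0]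
    · rw [Complex.normSq_neg, Complex.normSq_ofReal, Real.mul_self_sqrt h0]
  have hn : 0 < Complex.normSq q := Complex.normSq_pos.2 hq
  set t := √((ρ - Complex.normSq q) / Complex.normSq q) with ht
  have ht2 : t * t = (ρ - Complex.normSq q) / Complex.normSq q :=
    Real.mul_self_sqrt (div_nonneg (by linarith) hn.le)
  have key : Complex.normSq q * (1 + t * t) = ρ := by
    rw [ht2]; field_simp; ring
  refine ⟨q * ⟨1, t⟩, q * ⟨1, -t⟩, ?_, ?_, ?_⟩
  · rw [map_mul, ← key, Complex.normSq_mk 1 t]; ring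
  · rw [map_mul, ← key, Complex.normSq_mk 1 (-t)]; ring
  · rw [← mul_add, mul_comm]
    congr 1
    apply Complex.ext <;> simp
    norm_num

open scoped InnerProductSpace in
lemma dec_inner {E : Type*} [NormedAddCommGroup E] [InnerProductSpace ℂ E] (v : Fin 3 → E)
    (h1 : ‖v 1‖ = ‖v 0‖) (h2 : ‖v 2‖ = ‖v 0‖) : Dec (fun i j => ⟪v i, v j⟫_ℂ) := by
  by_cases h0 : v 0 = 0
  · have e1 : v 1 = 0 := by simpa [h0] using h1
    have e2 : v 2 = 0 := by simpa [h0] using h2
    have := dec_rank_one 0 rfl rfl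
    convert this using 3 with i j
    fin_cases i <;> simp [h0, e1, e2]
  have hs : 0 < ‖v 0‖ := norm_pos_iff.2 h0
  set s := ‖v 0‖ with hsdef
  have hs' : (s : ℂ) ≠ 0 := by exact_mod_cast hs.ne'
  set e : E := ((s : ℂ)⁻¹) • v 0 with he
  have hv0 : v 0 = (s : ℂ) • e := by rw [he, smul_smul, mul_inv_cancel₀ hs', one_smul]
  have hee : ⟪e, e⟫_ℂ = 1 := by
    rw [inner_self_eq_norm_sq_to_K, he, norm_smul, norm_inv, Complex.norm_real, Real.norm_eq_abs,
      abs_of_pos hs, ← hsdef, inv_mul_cancel₀ hs.ne']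
    simp
  set x := ⟪e, v 1⟫_ℂ with hx
  set y := ⟪e, v 2⟫_ℂ with hy
  set u₁ := v 1 - x • e with hu₁
  set u₂ := v 2 - y • e with hu₂
  have hv1 : v 1 = x • e + u₁ := by rw [hu₁]; abel
  have hv2 : v 2 = y • e + u₂ := by rw [hu₂]; abel
  have o1 : ⟪e, u₁⟫_ℂ = 0 := by rw [hu₁, inner_sub_right, inner_smul_right, hee, ← hx]; ring
  have o2 : ⟪e, u₂⟫_ℂ = 0 := by rw [hu₂, inner_sub_right, inner_smul_right, hee, ← hy]; ring
  have o1' : ⟪u₁, e⟫_ℂ = 0 := by rw [← inner_conj_symm, o1]; simp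
  have o2' : ⟪u₂, e⟫_ℂ = 0 := by rw [← inner_conj_symm, o2]; simp
  set p := ‖u₁‖ with hp
  set ρ := ‖u₂‖ with hρ
  set c := ⟪u₁, u₂⟫_ℂ with hc
  have hc' : ⟪u₂, u₁⟫_ℂ = conj c := by rw [hc, inner_conj_symm]
  have h11 : ⟪u₁, u₁⟫_ℂ = (p : ℂ) ^ 2 := by rw [inner_self_eq_norm_sq_to_K]; rfl
  have h22 : ⟪u₂, u₂⟫_ℂ = (ρ : ℂ) ^ 2 := by rw [inner_self_eq_norm_sq_to_K]; rfl
  have hcs : ‖c‖ ≤ p * ρ := norm_inner_le_norm u₁ u₂
  have hp0 : 0 ≤ p := norm_nonneg _
  have hρ0 : 0 ≤ ρ := norm_nonneg _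
  obtain ⟨q, hq1, hq2⟩ : ∃ q : ℂ, (p : ℂ) * q = c ∧ Complex.normSq q ≤ ρ ^ 2 := by
    rcases hp0.eq_or_lt with hp' | hp'
    · refine ⟨0, ?_, by simp; positivity⟩
      rw [← hp', zero_mul] at hcs
      simp [norm_le_zero_iff.1 hcs]
    · have hp'' : (p : ℂ) ≠ 0 := by exact_mod_cast hp'.ne'
      refine ⟨c / p, by field_simp, ?_⟩
      rw [Complex.normSq_eq_norm_sq, norm_div, Complex.norm_real, Real.norm_eq_abs,
        abs_of_pos hp']
      gcongr
      rw [div_le_iff₀ hp', mul_comm]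
      exact hcs
  obtain ⟨q₁, q₂, n1, n2, hq⟩ := exists_midpoint q _ hq2
  have g11 : ⟪v 1, v 1⟫_ℂ = conj x * x + (p : ℂ) ^ 2 := by
    rw [hv1]
    simp only [inner_add_left, inner_add_right, inner_smul_left, inner_smul_right, hee, o1, o1',
      h11]
    ring
  have g22 : ⟪v 2, v 2⟫_ℂ = conj y * y + (ρ : ℂ) ^ 2 := by
    rw [hv2]
    simp only [inner_add_left, inner_add_right, inner_smul_left, inner_smul_right, hee, o2, o2',
      h22]
    ring
  have m1 : Complex.normSq x + p ^ 2 = s ^ 2 := by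
    rw [inner_self_eq_norm_sq_to_K, h1, ← Complex.normSq_eq_conj_mul_self] at g11
    have : ((s ^ 2 : ℝ) : ℂ) = ((Complex.normSq x + p ^ 2 : ℝ) : ℂ) := by
      push_cast; exact g11
    exact (Complex.ofReal_injective this).symm
  have m2 : Complex.normSq y + ρ ^ 2 = s ^ 2 := by
    rw [inner_self_eq_norm_sq_to_K, h2, ← Complex.normSq_eq_conj_mul_self] at g22
    have : ((s ^ 2 : ℝ) : ℂ) = ((Complex.normSq y + ρ ^ 2 : ℝ) : ℂ) := by
      push_cast; exact g22
    exact (Complex.ofReal_injective this).symm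
  set κ : ℝ := √(1 / 2) with hκ
  have hκ2 : κ * κ = 1 / 2 := Real.mul_self_sqrt (by norm_num)
  have hκ2' : (κ : ℂ) * κ = 1 / 2 := by
    rw [← Complex.ofReal_mul, hκ2]; push_cast; ring
  have piece : ∀ q' : ℂ, Complex.normSq q' = ρ ^ 2 →
      Dec (fun i j => conj (![(κ : ℂ) * s, κ * x, κ * y] i) * ![(κ : ℂ) * s, κ * x, κ * y] j +
        conj (![(0 : ℂ), κ * p, κ * q'] i) * ![(0 : ℂ), κ * p, κ * q'] j) := fun q' hq' => by
    apply dec_two
    · simp only [Matrix.cons_val_zero, Matrix.cons_val_one, map_mul, Complex.normSq_ofReal,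
        map_zero]
      linear_combination (κ * κ) * m1
    · simp only [Matrix.cons_val_zero, Matrix.cons_val_two, Matrix.tail_cons, Matrix.head_cons,
        map_mul, Complex.normSq_ofReal, map_zero, hq']
      linear_combination (κ * κ) * m2
  have fin := (piece q₁ n1).add (piece q₂ n2)
  have n1' : conj q₁ * q₁ = (ρ : ℂ) ^ 2 := by
    rw [← Complex.normSq_eq_conj_mul_self, n1]; push_cast; ring
  have n2' : conj q₂ * q₂ = (ρ : ℂ) ^ 2 := by
    rw [← Complex.normSq_eq_conj_mul_self, n2]; push_cast; ring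
  have hq' : conj q₁ + conj q₂ = 2 * conj q := by
    rw [← map_add, hq, map_mul, map_ofNat]
  have hq1' : (p : ℂ) * conj q = conj c := by rw [← hq1, map_mul]; simp
  have g00 : ⟪v 0, v 0⟫_ℂ = (s : ℂ) * s := by
    rw [hv0]; simp only [inner_smul_left, inner_smul_right, hee, Complex.conj_ofReal]; ring
  have g01 : ⟪v 0, v 1⟫_ℂ = (s : ℂ) * x := by
    rw [hv0]; simp only [inner_smul_left, Complex.conj_ofReal, ← hx]
  have g02 : ⟪v 0, v 2⟫_ℂ = (s : ℂ) * y := by
    rw [hv0]; simp only [inner_smul_left, Complex.conj_ofReal, ← hy]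
  have g10 : ⟪v 1, v 0⟫_ℂ = (s : ℂ) * conj x := by
    rw [← inner_conj_symm, g01]; simp
  have g20 : ⟪v 2, v 0⟫_ℂ = (s : ℂ) * conj y := by
    rw [← inner_conj_symm, g02]; simp
  have g12 : ⟪v 1, v 2⟫_ℂ = conj x * y + c := by
    rw [hv1, hv2]
    simp only [inner_add_left, inner_add_right, inner_smul_left, inner_smul_right, hee, o2, o1',
      ← hc]
    ring
  have g21 : ⟪v 2, v 1⟫_ℂ = conj y * x + conj c := by
    rw [← inner_conj_symm, g12]; simp [mul_comm]
  convert fin using 3 with i j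
  fin_cases i <;> fin_cases j <;>
    simp only [Fin.zero_eta, Fin.mk_one, Fin.reduceFinMk, Matrix.cons_val_zero,
      Matrix.cons_val_one, Matrix.cons_val_two, Matrix.tail_cons, Matrix.head_cons, map_mul,
      Complex.conj_ofReal, map_zero, g00, g01, g02, g10, g11, g12, g20, g21, g22]
  · linear_combination (-2 * (s : ℂ) * s) * hκ2'
  · linear_combination (-2 * (s : ℂ) * x) * hκ2'
  · linear_combination (-2 * (s : ℂ) * y) * hκ2'
  · linear_combination (-2 * (s : ℂ) * conj x) * hκ2'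
  · linear_combination (-2 * (conj x * x + (p : ℂ) ^ 2)) * hκ2'
  · linear_combination (-2 * (conj x * y) - p * (q₁ + q₂)) * hκ2' - (1 / 2 * (p : ℂ)) * hq - hq1
  · linear_combination (-2 * (s : ℂ) * conj y) * hκ2'
  · linear_combination (-2 * (conj y * x) - p * (conj q₁ + conj q₂)) * hκ2'
      - (1 / 2 * (p : ℂ)) * hq' - hq1'
  · linear_combination (-2 * (conj y * y) - (conj q₁ * q₁ + conj q₂ * q₂)) * hκ2'
      - (1 / 2 : ℂ) * n1' - (1 / 2 : ℂ) * n2'

open scoped InnerProductSpace in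
/-- The triangle has the scalar extension property. -/
lemma ext_tri_complex : ExtensionProperty ℂ Ltri := by
  intro a ha K _
  obtain ⟨W, hW⟩ := ha.exists_gram
  let v : Fin 3 → EuclideanSpace ℂ Ltri := fun i => WithLp.toLp 2 fun k => W k ⟨p3 i, p3_mem i⟩
  have hv : ∀ i j, ⟪v i, v j⟫_ℂ = a (p3 i - p3 j) := fun i j => by
    have := hW ⟨p3 i, p3_mem i⟩ ⟨p3 j, p3_mem j⟩
    rw [of_apply] at this
    rw [this, PiLp.inner_apply]
    refine Finset.sum_congr rfl fun k _ => ?_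
    simp [v, mul_comm]
  have hn : ∀ i, ‖v i‖ = ‖v 0‖ := fun i => by
    have e : ⟪v i, v i⟫_ℂ = ⟪v 0, v 0⟫_ℂ := by rw [hv, hv, sub_self, sub_self]
    rw [inner_self_eq_norm_sq_to_K, inner_self_eq_norm_sq_to_K] at e
    have e' : ‖v i‖ ^ 2 = ‖v 0‖ ^ 2 := by exact_mod_cast e
    exact (pow_left_inj₀ (norm_nonneg _) (norm_nonneg _) two_ne_zero).1 e'
  obtain ⟨b, hb, hb'⟩ := dec_inner v (hn 1) (hn 2)
  refine ⟨b, fun i hi j hj => ?_, hb' K⟩
  obtain ⟨s, -, rfl⟩ := Finset.mem_image.1 hi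
  obtain ⟨t, -, rfl⟩ := Finset.mem_image.1 hj
  rw [hb]
  exact hv s t

/-- The set `{0, 1, 3}` in `Z`. -/
def Lbad : Finset (Fin 1 → ℤ) := {![0], ![1], ![3]}

lemma not_ext_bad : ¬ ExtensionProperty ℂ Lbad := by
  intro h
  let a : (Fin 1 → ℤ) → ℂ := fun l => if l 0 = 0 ∨ l 0 = 1 ∨ l 0 = -1 then 1 else -1
  have ha : IsPos (Matrix.of fun i j : Lbad => a (i.1 - j.1)) := by
    refine isPos_of_gram (fun (_ : Unit) (i : Lbad) => if i.1 0 = 3 then (-1 : ℂ) else 1) _ ?_
    rintro ⟨i, hi⟩ ⟨j, hj⟩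
    simp only [Lbad, Finset.mem_insert, Finset.mem_singleton] at hi hj
    rcases hi with rfl | rfl | rfl <;> rcases hj with rfl | rfl | rfl <;> simp [a]
  let K : Finset (Fin 1 → ℤ) := {![0], ![1], ![2], ![3]}
  obtain ⟨b, hb, hb'⟩ := h a ha K (by decide)
  obtain ⟨V, hV⟩ := hb'.exists_gram
  have m0 : ![0] ∈ K := by decide
  have m1 : ![1] ∈ K := by decide
  have m2 : ![2] ∈ K := by decide
  have b0 : b ![0] = 1 := by
    have := hb ![0] (by decide) ![0] (by decide)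
    rw [show (![0] - ![0] : Fin 1 → ℤ) = ![0] by decide] at this
    simpa [a] using this
  have b1 : b ![1] = 1 := by
    have := hb ![1] (by decide) ![0] (by decide)
    rw [show (![1] - ![0] : Fin 1 → ℤ) = ![1] by decide] at this
    simpa [a] using this
  have b1' : b ![-1] = 1 := by
    have := hb ![0] (by decide) ![1] (by decide)
    rw [show (![0] - ![1] : Fin 1 → ℤ) = ![-1] by decide] at this
    simpa [a] using this
  have b2 : b ![2] = -1 := by
    have := hb ![3] (by decide) ![1] (by decide)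
    rw [show (![3] - ![1] : Fin 1 → ℤ) = ![2] by decide] at this
    simpa [a] using this
  have same : ∀ i j : K, b (i.1 - j.1) = 1 → b (j.1 - i.1) = 1 → ∀ r, V r i = V r j := by
    intro i j hij hji r
    have e : ∑ r, star (V r i - V r j) * (V r i - V r j) =
        b (i.1 - i.1) - b (i.1 - j.1) - b (j.1 - i.1) + b (j.1 - j.1) := by
      have k1 := hV i i
      have k2 := hV i j
      have k3 := hV j i
      have k4 := hV j j
      rw [of_apply] at k1 k2 k3 k4
      rw [k1, k2, k3, k4]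
      simp only [← Finset.sum_sub_distrib, ← Finset.sum_add_distrib, star_sub]
      refine Finset.sum_congr rfl fun r _ => ?_
      ring
    have z : (0 : Fin 1 → ℤ) = ![0] := by decide
    rw [sub_self, sub_self, z, b0, hij, hji] at e
    exact sub_eq_zero.1 (eq_zero_of_sum_star_mul_self (fun r => V r i - V r j)
      (by rw [e]; ring) r)
  have s1 := same ⟨_, m2⟩ ⟨_, m1⟩
    (by rw [show ((![2] : Fin 1 → ℤ) - ![1]) = ![1] by decide, b1])
    (by rw [show ((![1] : Fin 1 → ℤ) - ![2]) = ![-1] by decide, b1'])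
  have k1 := hV ⟨_, m2⟩ ⟨_, m0⟩
  have k2 := hV ⟨_, m1⟩ ⟨_, m0⟩
  rw [of_apply] at k1 k2
  simp only [s1] at k1
  rw [← k2, show ((![2] : Fin 1 → ℤ) - ![0]) = ![2] by decide,
    show ((![1] : Fin 1 → ℤ) - ![0]) = ![1] by decide, b1, b2] at k1
  norm_num at k1

end Pool.Agent.Work.MP_05e9ba_an
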