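import Mathlib.Topology.ContinuousMap.Bounded.Normed
import Mathlib.Topology.MetricSpace.HausdorffDistance
import Mathlib.Analysis.SpecificLimits.Basic
import Mathlib.Analysis.Convex.Topology
import Mathlib.Analysis.Complex.Basic
import Mathlib.Topology.Maps.Proper.Basic

/-!
Lifting through compact convex sets over a space in which disjoint cozero sets are completely
separated.
-/

namespace Pool.Agent.Work.MP_05e9ba_an

open Filter Topology Set

/-- Disjoint cozero sets are completely separated. -/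
def FProp (Y : Type*) [TopologicalSpace Y] : Prop :=
  ∀ a b : Y → ℝ, Continuous a → Continuous b → (∀ y, a y = 0 ∨ b y = 0) →
    ∃ e : Y → ℝ, Continuous e ∧ (∀ y, 0 ≤ e y ∧ e y ≤ 1) ∧ (∀ y, a y ≠ 0 → e y = 1) ∧
      (∀ y, b y ≠ 0 → e y = 0)

variable {Y : Type*} [TopologicalSpace Y]

lemma bisect (hF : FProp Y) {M : Type*} [PseudoMetricSpace M] {U D : Set (M × ℝ)}
    (hU : IsClosed U) (hD : IsClosed D)
    (hUup : ∀ m s s', (m, s) ∈ U → s ≤ s' → (m, s') ∈ U)
    (hDdown : ∀ m s s', (m, s) ∈ D → s' ≤ s → (m, s') ∈ D)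
    {G : Y → M} (hG : Continuous G) (hcov : ∀ y s, (G y, s) ∈ U ∨ (G y, s) ∈ D)
    (δ : ℝ) (hδ : 0 ≤ δ) (L : BoundedContinuousFunction Y ℝ)
    (hL : ∀ y, (G y, L y + δ) ∈ U ∧ (G y, L y) ∈ D) :
    ∃ L' : BoundedContinuousFunction Y ℝ, dist L L' ≤ δ / 2 ∧
      ∀ y, (G y, L' y + δ / 2) ∈ U ∧ (G y, L' y) ∈ D := by
  have hc : Continuous fun y => (G y, L y + δ / 2) := by fun_prop
  obtain ⟨e, he, he01, he1, he0⟩ := hF (fun y => Metric.infDist (G y, L y + δ / 2) U)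
    (fun y => Metric.infDist (G y, L y + δ / 2) D)
    ((Metric.continuous_infDist_pt U).comp hc) ((Metric.continuous_infDist_pt D).comp hc)
    (fun y => (hcov y (L y + δ / 2)).imp Metric.infDist_zero_of_mem Metric.infDist_zero_of_mem)
  let E : BoundedContinuousFunction Y ℝ := BoundedContinuousFunction.ofNormedAddCommGroup
    (fun y => δ / 2 * e y) (by fun_prop) (δ / 2) (fun y => by
      rw [Real.norm_eq_abs, abs_of_nonneg (mul_nonneg (by linarith) (he01 y).1)]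
      nlinarith [he01 y])
  have hE : ∀ y, E y = δ / 2 * e y := fun y => rfl
  refine ⟨L + E, ?_, fun y => ?_⟩
  · rw [dist_self_add_right]
    exact BoundedContinuousFunction.norm_ofNormedAddCommGroup_le _ (by linarith) _
  · simp only [BoundedContinuousFunction.coe_add, Pi.add_apply, hE]
    constructor
    · by_cases hy : (G y, L y + δ / 2) ∈ U
      · exact hUup _ _ _ hy (by nlinarith [he01 y])
      · have := he1 y ((hU.notMem_iff_infDist_pos ⟨_, (hL y).1⟩).1 hy).ne'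
        exact hUup _ _ _ (hL y).1 (by rw [this]; linarith)
    · by_cases hy : (G y, L y + δ / 2) ∈ D
      · exact hDdown _ _ _ hy (by nlinarith [he01 y])
      · have := he0 y ((hD.notMem_iff_infDist_pos ⟨_, (hL y).2⟩).1 hy).ne'
        exact hDdown _ _ _ (hL y).2 (by rw [this]; linarith)

lemma interpolate (hF : FProp Y) {M : Type*} [PseudoMetricSpace M] {U D : Set (M × ℝ)}
    (hU : IsClosed U) (hD : IsClosed D)
    (hUup : ∀ m s s', (m, s) ∈ U → s ≤ s' → (m, s') ∈ U)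
    (hDdown : ∀ m s s', (m, s) ∈ D → s' ≤ s → (m, s') ∈ D)
    {G : Y → M} (hG : Continuous G) (hcov : ∀ y s, (G y, s) ∈ U ∨ (G y, s) ∈ D)
    (C : ℝ) (hC : 0 ≤ C) (hb : ∀ y, (G y, C) ∈ U ∧ (G y, -C) ∈ D) :
    ∃ t : Y → ℝ, Continuous t ∧ ∀ y, (G y, t y) ∈ U ∧ (G y, t y) ∈ D := by
  let Inv : ℕ → BoundedContinuousFunction Y ℝ → Prop := fun n L =>
    ∀ y, (G y, L y + 2 * C / 2 ^ n) ∈ U ∧ (G y, L y) ∈ D
  have step : ∀ n L, Inv n L → ∃ L', dist L L' ≤ 2 * C / 2 / 2 ^ n ∧ Inv (n + 1) L' := by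
    intro n L hL
    obtain ⟨L', h1, h2⟩ := bisect hF hU hD hUup hDdown hG hcov (2 * C / 2 ^ n) (by positivity) L hL
    refine ⟨L', by rwa [div_right_comm] , fun y => ?_⟩
    have e : 2 * C / 2 ^ (n + 1) = 2 * C / 2 ^ n / 2 := by rw [pow_succ, div_div]
    rw [e]
    exact h2 y
  choose f hf using step
  have h0 : Inv 0 (BoundedContinuousFunction.const Y (-C)) := fun y => by
    have e : -C + 2 * C / 2 ^ 0 = C := by ring
    simp only [BoundedContinuousFunction.const_apply, e]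
    exact hb y
  let s : (n : ℕ) → {L // Inv n L} := fun n => Nat.rec ⟨_, h0⟩
    (fun n L => ⟨f n L.1 L.2, (hf n L.1 L.2).2⟩) n
  have hs : ∀ n, dist (s n).1 (s (n + 1)).1 ≤ 2 * C / 2 / 2 ^ n := fun n =>
    (hf n (s n).1 (s n).2).1
  obtain ⟨T, hT⟩ := cauchySeq_tendsto_of_complete (cauchySeq_of_le_geometric_two hs)
  refine ⟨T, T.continuous, fun y => ?_⟩
  have hy : Tendsto (fun n => (s n).1 y) atTop (𝓝 (T y)) :=
    ((continuous_eval_const y).tendsto T).comp hT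
  have hz : Tendsto (fun n : ℕ => 2 * C / 2 ^ n) atTop (𝓝 0) :=
    tendsto_const_nhds.div_atTop (tendsto_pow_atTop_atTop_of_one_lt one_lt_two)
  constructor
  · refine hU.mem_of_tendsto (f := fun n => (G y, (s n).1 y + 2 * C / 2 ^ n)) (b := atTop) ?_
      (Eventually.of_forall fun n => ((s n).2 y).1)
    have := hy.add hz
    rw [add_zero] at this
    exact tendsto_const_nhds.prodMk_nhds this
  · exact hD.mem_of_tendsto (f := fun n => (G y, (s n).1 y)) (b := atTop)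
      (tendsto_const_nhds.prodMk_nhds hy) (Eventually.of_forall fun n => ((s n).2 y).2)

lemma isClosed_shadow {ι : Type*} [Fintype ι] {P : Set (ι → ℝ)} (hP : IsCompact P) (J : Set ι)
    (i : ι) (R : Set (ℝ × ℝ)) (hR : IsClosed R) :
    IsClosed {z : (ι → ℝ) × ℝ | ∃ p ∈ P, (∀ j ∈ J, p j = z.1 j) ∧ (p i, z.2) ∈ R} := by
  have : CompactSpace P := isCompact_iff_compactSpace.1 hP
  have e : {z : (ι → ℝ) × ℝ | ∃ p ∈ P, (∀ j ∈ J, p j = z.1 j) ∧ (p i, z.2) ∈ R} =
      Prod.snd '' {w : P × ((ι → ℝ) × ℝ) | (∀ j ∈ J, w.1.1 j = w.2.1 j) ∧ (w.1.1 i, w.2.2) ∈ R} := by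
    ext z
    constructor
    · rintro ⟨p, hp, h⟩
      exact ⟨(⟨p, hp⟩, z), h, rfl⟩
    · rintro ⟨w, h, rfl⟩
      exact ⟨w.1.1, w.1.2, h⟩
  rw [e]
  apply isClosedMap_snd_of_compactSpace
  have c1 : ∀ j, Continuous fun w : P × ((ι → ℝ) × ℝ) => w.1.1 j := fun j =>
    (continuous_apply j).comp (continuous_subtype_val.comp continuous_fst)
  refine IsClosed.inter ?_ (hR.preimage ((c1 i).prodMk (continuous_snd.comp continuous_snd)))
  have e2 : {w : P × ((ι → ℝ) × ℝ) | ∀ j ∈ J, w.1.1 j = w.2.1 j} =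
      ⋂ j ∈ J, {w : P × ((ι → ℝ) × ℝ) | w.1.1 j = w.2.1 j} := by
    ext w; simp
  change IsClosed {w : P × ((ι → ℝ) × ℝ) | ∀ j ∈ J, w.1.1 j = w.2.1 j}
  rw [e2]
  exact isClosed_biInter fun j _ => isClosed_eq (c1 j) (by fun_prop)

lemma lift_one (hF : FProp Y) {ι : Type*} [Fintype ι] {P : Set (ι → ℝ)} (hP : IsCompact P)
    (hc : Convex ℝ P) (J : Set ι) (i : ι) {g : Y → ι → ℝ} (hg : Continuous g)
    (h : ∀ y, ∃ p ∈ P, ∀ j ∈ J, p j = g y j) :
    ∃ t : Y → ℝ, Continuous t ∧ ∀ y, ∃ p ∈ P, (∀ j ∈ J, p j = g y j) ∧ p i = t y := by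
  obtain ⟨C, hC⟩ := hP.isBounded.exists_norm_le
  have hC' : ∀ p ∈ P, |p i| ≤ max C 0 := fun p hp =>
    (norm_le_pi_norm p i).trans ((hC p hp).trans (le_max_left _ _))
  obtain ⟨t, ht, ht'⟩ := interpolate hF
    (isClosed_shadow hP J i {w | w.1 ≤ w.2} (isClosed_le continuous_fst continuous_snd))
    (isClosed_shadow hP J i {w | w.2 ≤ w.1} (isClosed_le continuous_snd continuous_fst))
    (fun m s s' ⟨p, hp, h1, h2⟩ hs => ⟨p, hp, h1, le_trans h2 hs⟩)
    (fun m s s' ⟨p, hp, h1, h2⟩ hs => ⟨p, hp, h1, le_trans hs h2⟩) hg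
    (fun y s => by
      obtain ⟨p, hp, h1⟩ := h y
      exact (le_total (p i) s).imp (fun h2 => ⟨p, hp, h1, h2⟩) (fun h2 => ⟨p, hp, h1, h2⟩))
    (max C 0) (le_max_right _ _)
    (fun y => by
      obtain ⟨p, hp, h1⟩ := h y
      exact ⟨⟨p, hp, h1, (abs_le.1 (hC' p hp)).2⟩, ⟨p, hp, h1, (abs_le.1 (hC' p hp)).1⟩⟩)
  refine ⟨t, ht, fun y => ?_⟩
  obtain ⟨⟨p, hp, h1, h2⟩, ⟨q, hq, h3, h4⟩⟩ := ht' y
  simp only [mem_ofPred_eq] at h1 h2 h3 h4
  obtain ⟨a, b, ha, hb, hab, he⟩ := (Convex.mem_Icc (h2.trans h4)).1 ⟨h2, h4⟩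
  refine ⟨a • p + b • q, hc hp hq ha hb hab, fun j hj => ?_, by simpa using he⟩
  simp only [Pi.add_apply, Pi.smul_apply, smul_eq_mul, h1 j hj, h3 j hj]
  rw [← add_mul, hab, one_mul]

lemma lift_real (hF : FProp Y) {ι : Type*} [Fintype ι] {P : Set (ι → ℝ)} (hP : IsCompact P)
    (hc : Convex ℝ P) (J : Set ι) {g : Y → ι → ℝ} (hg : Continuous g)
    (h : ∀ y, ∃ p ∈ P, ∀ j ∈ J, p j = g y j) :
    ∃ g' : Y → ι → ℝ, Continuous g' ∧ ∀ y, g' y ∈ P ∧ ∀ j ∈ J, g' y j = g y j := by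
  classical
  have key : ∀ S : Finset ι, ∃ g' : Y → ι → ℝ, Continuous g' ∧
      ∀ y, (∃ p ∈ P, ∀ j ∈ J ∪ (S : Set ι), p j = g' y j) ∧ ∀ j ∈ J, g' y j = g y j := by
    intro S
    induction S using Finset.induction_on with
    | empty => exact ⟨g, hg, fun y => ⟨by simpa using h y, fun _ _ => rfl⟩⟩
    | insert i S hi ih =>
      obtain ⟨g', hg', h'⟩ := ih
      by_cases hiJ : i ∈ J
      · refine ⟨g', hg', fun y => ⟨?_, (h' y).2⟩⟩
        obtain ⟨p, hp, h1⟩ := (h' y).1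
        refine ⟨p, hp, fun j hj => h1 j ?_⟩
        simp only [Finset.coe_insert, mem_union, mem_insert_iff] at hj ⊢
        rcases hj with hj | rfl | hj
        · exact Or.inl hj
        · exact Or.inl hiJ
        · exact Or.inr hj
      · obtain ⟨t, ht, ht'⟩ := lift_one hF hP hc (J ∪ (S : Set ι)) i hg' fun y => (h' y).1
        refine ⟨fun y => Function.update (g' y) i (t y), hg'.update i ht, fun y => ⟨?_, ?_⟩⟩
        · obtain ⟨p, hp, h1, h2⟩ := ht' y
          refine ⟨p, hp, fun j hj => ?_⟩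
          by_cases hji : j = i
          · subst hji
            simpa using h2
          · beta_reduce
            rw [Function.update_of_ne hji]
            apply h1
            simp only [Finset.coe_insert, mem_union, mem_insert_iff] at hj ⊢
            tauto
        · intro j hj
          have hji : j ≠ i := fun e => hiJ (e ▸ hj)
          beta_reduce
          rw [Function.update_of_ne hji, (h' y).2 j hj]
  obtain ⟨g', hg', h'⟩ := key Finset.univ
  refine ⟨g', hg', fun y => ⟨?_, (h' y).2⟩⟩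
  obtain ⟨p, hp, h1⟩ := (h' y).1
  have : p = g' y := funext fun j => h1 j (by simp)
  exact this ▸ hp

lemma lift_complex (hF : FProp Y) {ι : Type*} [Fintype ι] {P : Set (ι → ℂ)} (hP : IsCompact P)
    (hc : Convex ℝ P) (J : Set ι) {g : Y → ι → ℂ} (hg : Continuous g)
    (h : ∀ y, ∃ p ∈ P, ∀ j ∈ J, p j = g y j) :
    ∃ g' : Y → ι → ℂ, Continuous g' ∧ ∀ y, g' y ∈ P ∧ ∀ j ∈ J, g' y j = g y j := by
  let Φ : (ι → ℂ) →ₗ[ℝ] (ι ⊕ ι → ℝ) :=
    { toFun := fun p => Sum.elim (fun i => (p i).re) (fun i => (p i).im)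
      map_add' := fun p q => by ext (i | i) <;> simp
      map_smul' := fun c p => by ext (i | i) <;> simp }
  have hΦ : Continuous Φ := by
    refine continuous_pi fun j => ?_
    rcases j with i | i
    · exact Complex.continuous_re.comp (continuous_apply i)
    · exact Complex.continuous_im.comp (continuous_apply i)
  obtain ⟨g', hg', h'⟩ := lift_real hF (hP.image hΦ) (hc.linear_image Φ)
    {j | Sum.elim (fun i => i ∈ J) (fun i => i ∈ J) j} (hΦ.comp hg) (fun y => by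
      obtain ⟨p, hp, h1⟩ := h y
      refine ⟨Φ p, mem_image_of_mem _ hp, ?_⟩
      rintro (i | i) hi
      · exact congrArg Complex.re (h1 i hi)
      · exact congrArg Complex.im (h1 i hi))
  refine ⟨fun y i => (g' y (Sum.inl i) : ℂ) + (g' y (Sum.inr i) : ℂ) * Complex.I, by fun_prop,
    fun y => ⟨?_, fun j hj => ?_⟩⟩
  · obtain ⟨p, hp, h1⟩ := (h' y).1
    convert hp using 1
    ext i
    beta_reduce
    rw [← h1]
    exact Complex.re_add_im (p i)
  · beta_reduce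
    rw [(h' y).2 (Sum.inl j) hj, (h' y).2 (Sum.inr j) hj]
    exact Complex.re_add_im (g y j)

end Pool.Agent.Work.MP_05e9ba_an
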