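import Pool.Agent.Work.MP_05e9ba_an.Necessity
import Pool.Agent.Work.MP_05e9ba_an.Interp

/-!
In the commutative case the separation condition gives the scalar extension behaviour.
-/

namespace Pool.Agent.Work.MP_05e9ba_an

open WeakDual Filter Topology Set ComplexConjugate

lemma fprop_of_sep {X : Type*} [TopologicalSpace X] [RegularSpace X]
    (hsep : ∀ U V : Set X, IsOpen U → IsOpen V → IsSigmaCompact U → IsSigmaCompact V →
      Disjoint U V → Disjoint (closure U) (closure V))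
    {Y : Set X} (hY : IsOpen Y) (hY' : IsSigmaCompact Y) : FProp Y := by
  have : SigmaCompactSpace Y := isSigmaCompact_iff_sigmaCompactSpace.1 hY'
  have coz : ∀ a : Y → ℝ, Continuous a → IsOpen (Subtype.val '' {y | a y ≠ 0}) ∧
      IsSigmaCompact (Subtype.val '' {y | a y ≠ 0}) := fun a ha => by
    refine ⟨hY.isOpenMap_subtype_val _ (isOpen_ne_fun ha continuous_const),
      IsSigmaCompact.image continuous_subtype_val ?_⟩
    have e : {y | a y ≠ 0} = ⋃ n : ℕ, {y | 1 / ((n : ℝ) + 1) ≤ |a y|} := by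
      ext y
      simp only [mem_ofPred_eq, mem_iUnion]
      constructor
      · intro h
        obtain ⟨n, hn⟩ := exists_nat_one_div_lt (abs_pos.2 h)
        exact ⟨n, hn.le⟩
      · rintro ⟨n, hn⟩
        exact abs_pos.1 (lt_of_lt_of_le (by positivity) hn)
    rw [e]
    exact isSigmaCompact_iUnion _ fun n => isSigmaCompact_univ.of_isClosed_subset
      (isClosed_le continuous_const ha.abs) (subset_univ _)
  intro a b ha hb hab
  have hd := hsep _ _ (coz b hb).1 (coz a ha).1 (coz b hb).2 (coz a ha).2 (by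
    rw [Set.disjoint_image_iff Subtype.val_injective, Set.disjoint_left]
    intro y h1 h2
    exact (hab y).elim h2 h1)
  have hd' : Disjoint (closure {y | b y ≠ 0}) (closure {y | a y ≠ 0}) := by
    rw [IsInducing.subtypeVal.closure_eq_preimage_closure_image,
      IsInducing.subtypeVal.closure_eq_preimage_closure_image]
    exact hd.preimage _
  obtain ⟨e, e0, e1, e01⟩ := exists_continuous_zero_one_of_isClosed isClosed_closure
    isClosed_closure hd'
  exact ⟨e, e.continuous, fun y => e01 y, fun y hy => e1 (subset_closure hy),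
    fun y hy => e0 (subset_closure hy)⟩

lemma continuous_extend_zero {X : Type*} [TopologicalSpace X] {ρ : X → ℝ} (hρ : Continuous ρ)
    {Y : Set X} [DecidablePred (· ∈ Y)] (hY : ∀ x, x ∈ Y ↔ ρ x ≠ 0) {u : Y → ℂ}
    (hu : Continuous u) (hb : ∀ y, ‖u y‖ ≤ 1) :
    Continuous fun x => if h : x ∈ Y then (ρ x : ℂ) * u ⟨x, h⟩ else 0 := by
  rw [continuous_iff_continuousAt]
  intro x
  by_cases h : x ∈ Y
  · have ho : IsOpen Y := by
      have : Y = {x | ρ x ≠ 0} := Set.ext hY
      rw [this]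
      exact isOpen_ne_fun hρ continuous_const
    refine ContinuousOn.continuousAt ?_ (ho.mem_nhds h)
    rw [continuousOn_iff_continuous_domRestrict]
    have e : Y.domRestrict (fun x => if h : x ∈ Y then (ρ x : ℂ) * u ⟨x, h⟩ else 0) =
        fun y => (ρ y.1 : ℂ) * u y := by
      funext y
      exact dif_pos y.2
    rw [e]
    fun_prop
  · have h0 : ρ x = 0 := by
      by_contra hc
      exact h ((hY x).2 hc)
    rw [ContinuousAt, dif_neg h]
    refine squeeze_zero_norm (a := fun x => |ρ x|) (fun z => ?_) ?_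
    · by_cases hz : z ∈ Y
      · rw [dif_pos hz, norm_mul, Complex.norm_real, Real.norm_eq_abs]
        exact mul_le_of_le_one_right (abs_nonneg _) (hb _)
      · rw [dif_neg hz, norm_zero]
        exact abs_nonneg _
    · have := hρ.abs.tendsto x
      simpa [h0] using this

lemma gram_diag {m : Type*} [Fintype m] (x : m → ℂ) :
    ∑ k, star (x k) * x k = ((∑ k, ‖x k‖ ^ 2 : ℝ) : ℂ) := by
  push_cast
  refine Finset.sum_congr rfl fun k _ => ?_
  rw [Complex.star_def, Complex.conj_mul']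

lemma norm_le_one_of_gram {m : Type*} [Fintype m] (x : m → ℂ)
    (h : ∑ k, star (x k) * x k = 1) (k : m) : ‖x k‖ ≤ 1 := by
  rw [gram_diag] at h
  have h' : ∑ k, ‖x k‖ ^ 2 = 1 := by exact_mod_cast h
  have : ‖x k‖ ^ 2 ≤ 1 := h' ▸ Finset.single_le_sum (f := fun k => ‖x k‖ ^ 2)
    (fun k _ => by positivity) (Finset.mem_univ k)
  nlinarith [norm_nonneg (x k)]

lemma IsPos.smul_real {n : Type} [Fintype n] {M : Matrix n n ℂ} (h : IsPos M) {t : ℝ}
    (ht : 0 ≤ t) : IsPos (t • M) := by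
  obtain ⟨W, hW⟩ := h.exists_gram
  refine isPos_of_gram (fun k i => (√t : ℝ) * W k i) _ fun i j => ?_
  rw [Matrix.smul_apply, hW, Complex.real_smul, Finset.mul_sum]
  refine Finset.sum_congr rfl fun k _ => ?_
  have : ((√t : ℝ) : ℂ) * (√t : ℝ) = t := by rw [← Complex.ofReal_mul, Real.mul_self_sqrt ht]
  simp only [star_mul, Complex.star_def, Complex.conj_ofReal]
  linear_combination (-(conj (W k i) * W k j)) * this

/-- Normalised positive Toeplitz matrices indexed by `K`. -/
def toepSet {d : ℕ} (K : Finset (Fin d → ℤ)) : Set (K × K → ℂ) :=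
  {T | IsPos (Matrix.of fun i j : K => T (i, j)) ∧
    (∀ i j i' j' : K, i.1 - j.1 = i'.1 - j'.1 → T (i, j) = T (i', j')) ∧ ∀ i : K, T (i, i) = 1}

lemma toepSet_convex {d : ℕ} (K : Finset (Fin d → ℤ)) : Convex ℝ (toepSet K) := by
  rintro S ⟨s1, s2, s3⟩ T ⟨t1, t2, t3⟩ a b ha hb hab
  refine ⟨(s1.smul_real ha).add (t1.smul_real hb), fun i j i' j' h => ?_, fun i => ?_⟩
  · simp only [Pi.add_apply, Pi.smul_apply, s2 i j i' j' h, t2 i j i' j' h]
  · simp only [Pi.add_apply, Pi.smul_apply, s3, t3, ← add_smul, hab, one_smul]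

lemma toepSet_compact {d : ℕ} (K : Finset (Fin d → ℤ)) : IsCompact (toepSet K) := by
  refine Metric.isCompact_of_isClosed_isBounded ?_ ?_
  · refine IsClosed.inter ?_ (IsClosed.inter ?_ ?_)
    · exact isClosed_isPos.preimage (f := fun T : K × K → ℂ => Matrix.of fun i j : K => T (i, j))
        (continuous_pi fun i => continuous_pi fun j => continuous_apply (i, j))
    · change IsClosed {T : K × K → ℂ | ∀ i j i' j' : K, i.1 - j.1 = i'.1 - j'.1 →
        T (i, j) = T (i', j')}
      simp only [ofPred_forall]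
      exact isClosed_iInter fun i => isClosed_iInter fun j => isClosed_iInter fun i' =>
        isClosed_iInter fun j' => isClosed_iInter fun _ =>
          isClosed_eq (continuous_apply _) (continuous_apply _)
    · change IsClosed {T : K × K → ℂ | ∀ i : K, T (i, i) = 1}
      simp only [ofPred_forall]
      exact isClosed_iInter fun i => isClosed_eq (continuous_apply _) continuous_const
  · rw [isBounded_iff_forall_norm_le]
    refine ⟨Fintype.card K, fun T hT => ?_⟩
    obtain ⟨W, hW⟩ := hT.1.exists_gram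
    have hb : ∀ k i, ‖W k i‖ ≤ 1 := fun k i =>
      norm_le_one_of_gram (fun k => W k i) (by rw [← hW]; exact hT.2.2 i) k
    rw [pi_norm_le_iff_of_nonneg (by positivity)]
    rintro ⟨i, j⟩
    have : T (i, j) = ∑ k, star (W k i) * W k j := hW i j
    rw [this]
    calc ‖∑ k, star (W k i) * W k j‖ ≤ ∑ k, ‖star (W k i) * W k j‖ := norm_sum_le _ _
      _ ≤ ∑ _k : K, (1 : ℝ) := Finset.sum_le_sum fun k _ => by
          rw [norm_mul, norm_star]
          exact mul_le_one₀ (hb k i) (norm_nonneg _) (hb k j)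
      _ = Fintype.card K := by simp

variable {A : Type*} [NonUnitalCommCStarAlgebra A]

lemma ext_complex_of_ext [Nontrivial A] {d : ℕ} {L : Finset (Fin d → ℤ)}
    (h : ExtensionProperty A L) : ExtensionProperty ℂ L := by
  intro a ha K hK
  obtain ⟨x, hx⟩ := exists_ne (0 : A)
  obtain ⟨φ, -⟩ : ∃ φ : characterSpace ℂ A, φ x ≠ 0 := by
    by_contra hc
    push Not at hc
    exact hx (eq_zero_of_char hc)
  obtain ⟨c, hc⟩ := exists_char_ne_zero φ
  obtain ⟨W, hW⟩ := ha.exists_gram
  obtain ⟨b, hb, hb'⟩ := h (fun l => a l • (star c * c))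
    (isPos_of_gram (fun k i => W k i • c) _ fun i j => by
      have := hW i j
      rw [Matrix.of_apply] at this ⊢
      rw [this, Finset.sum_smul]
      refine Finset.sum_congr rfl fun k _ => ?_
      rw [star_smul, smul_mul_smul_comm]) K hK
  obtain ⟨V, hV⟩ := hb'.exists_gram
  refine ⟨fun l => φ (b l), fun i hi j hj => ?_, isPos_of_gram (fun k i => φ (V k i)) _
    fun i j => ?_⟩
  · simp only [hb i hi j hj, map_smul, map_mul, char_star, hc]
    simp
  · rw [← char_gram, ← hV]
    rfl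

lemma ext_of_sep
    (hsep : ∀ U V : Set (characterSpace ℂ A), IsOpen U → IsOpen V → IsSigmaCompact U →
      IsSigmaCompact V → Disjoint U V → Disjoint (closure U) (closure V))
    {d : ℕ} {L : Finset (Fin d → ℤ)} (h : ExtensionProperty ℂ L) : ExtensionProperty A L := by
  classical
  intro a ha K hK
  rcases L.eq_empty_or_nonempty with rfl | ⟨i₀, hi₀⟩
  · exact ⟨0, by simp, isPos_zero⟩
  obtain ⟨W, hW⟩ := ha.exists_gram
  have hWφ : ∀ (φ : characterSpace ℂ A) (i j : L),
      φ (a (i.1 - j.1)) = ∑ k, star (φ (W k i)) * φ (W k j) := fun φ i j => by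
    rw [← char_gram, ← hW]
    rfl
  let δ : characterSpace ℂ A → ℝ := fun φ => ‖φ (a 0)‖
  have hδ : ∀ φ : characterSpace ℂ A, φ (a 0) = δ φ := fun φ => by
    have := hWφ φ ⟨i₀, hi₀⟩ ⟨i₀, hi₀⟩
    rw [sub_self, gram_diag] at this
    simp only [δ]
    rw [this, Complex.norm_real, Real.norm_eq_abs, abs_of_nonneg (by positivity)]
  have hδc : Continuous δ := (continuous_evalChar (a 0)).norm
  have hδ0 : ∀ φ, 0 ≤ δ φ := fun φ => norm_nonneg _
  let Y : Set (characterSpace ℂ A) := {φ | δ φ ≠ 0}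
  have hYo : IsOpen Y := isOpen_ne_fun hδc continuous_const
  have hYσ : IsSigmaCompact Y := by
    refine ⟨fun n => {φ | 1 / ((n : ℝ) + 1) ≤ ‖φ (a 0)‖},
      fun n => isCompact_level _ (by positivity), ?_⟩
    ext φ
    simp only [mem_ofPred_eq, mem_iUnion, Y]
    constructor
    · rintro ⟨n, hn⟩
      exact (lt_of_lt_of_le (by positivity) hn).ne'
    · intro h
      obtain ⟨n, hn⟩ := exists_nat_one_div_lt (lt_of_le_of_ne (hδ0 φ) (Ne.symm h))
      exact ⟨n, hn.le⟩
  have hF : FProp Y := fprop_of_sep hsep hYo hYσ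
  have hne : ∀ y : Y, ((δ y.1 : ℝ) : ℂ) ≠ 0 := fun y => by exact_mod_cast y.2
  let g : Y → K × K → ℂ := fun y p => ((δ y.1 : ℝ) : ℂ)⁻¹ * y.1 (a (p.1.1 - p.2.1))
  have hg : Continuous g := continuous_pi fun p =>
    ((Complex.continuous_ofReal.comp (hδc.comp continuous_subtype_val)).inv₀ hne).mul
      ((continuous_evalChar _).comp continuous_subtype_val)
  obtain ⟨T, hT, hT'⟩ := lift_complex hF (toepSet_compact K) (toepSet_convex K)
    {p | p.1.1 ∈ L ∧ p.2.1 ∈ L} hg (fun y => by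
      have p1 : IsPos (Matrix.of fun i j : L => y.1 (a (i.1 - j.1))) :=
        isPos_of_gram (fun k i => y.1 (W k i)) _ fun i j => hWφ y.1 i j
      obtain ⟨b, hb, hb'⟩ := h (fun l => y.1 (a l)) p1 K hK
      refine ⟨fun p => ((δ y.1 : ℝ) : ℂ)⁻¹ * b (p.1.1 - p.2.1), ⟨?_, ?_, ?_⟩, ?_⟩
      · have := hb'.smul_real (inv_nonneg.2 (hδ0 y.1))
        convert this using 1
        ext i j
        simp
      · intro i j i' j' e
        simp only [e]
      · intro i
        have := hb i₀ hi₀ i₀ hi₀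
        simp only [sub_self] at this ⊢
        rw [this, hδ, inv_mul_cancel₀ (hne y)]
      · rintro ⟨i, j⟩ ⟨hi, hj⟩
        simp only [g, hb _ hi _ hj])
  obtain ⟨s, hs, hs'⟩ := exists_continuous_sqrt (A := ℂ) (n := K)
  let S : Y → Matrix K K ℂ := fun y => s (Matrix.of fun i j => T y (i, j))
  have hS : Continuous S := hs.comp_continuous
    (continuous_pi fun i => continuous_pi fun j => (continuous_apply (i, j)).comp hT)
    fun y => (hT' y).1.1
  have hS' : ∀ y i j, T y (i, j) = ∑ k, star (S y k i) * S y k j := fun y i j =>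
    hs' _ (hT' y).1.1 i j
  have hS1 : ∀ y k i, ‖S y k i‖ ≤ 1 := fun y k i =>
    norm_le_one_of_gram (fun k => S y k i) (by rw [← hS']; exact (hT' y).1.2.2 i) k
  have hYρ : ∀ φ, φ ∈ Y ↔ √(δ φ) ≠ 0 := fun φ => by
    simp only [Y, mem_ofPred_eq, ne_eq, Real.sqrt_eq_zero (hδ0 φ)]
  have : ∀ k i : K, ∃ v : A, ∀ φ : characterSpace ℂ A,
      φ v = if h : φ ∈ Y then ((√(δ φ) : ℝ) : ℂ) * S ⟨φ, h⟩ k i else 0 := fun k i => by
    refine exists_elem _ (continuous_extend_zero hδc.sqrt hYρ (u := fun y => S y k i)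
      ((continuous_apply i).comp ((continuous_apply k).comp hS)) fun y => hS1 y k i) (a 0)
      fun ε hε => ⟨ε ^ 2, by positivity, fun φ hφ => ?_⟩
    have h1 : √(δ φ) < ε := by rwa [Real.sqrt_lt' hε]
    by_cases hφY : φ ∈ Y
    · rw [dif_pos hφY, norm_mul, Complex.norm_real, Real.norm_eq_abs,
        abs_of_nonneg (Real.sqrt_nonneg _)]
      exact lt_of_le_of_lt (mul_le_of_le_one_right (Real.sqrt_nonneg _) (hS1 _ k i)) h1
    · rwa [dif_neg hφY, norm_zero]
  choose V hV using this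
  let M : K → K → A := fun i j => ∑ k, star (V k i) * V k j
  have hM : ∀ (φ : characterSpace ℂ A) (i j : K),
      φ (M i j) = if h : φ ∈ Y then ((δ φ : ℝ) : ℂ) * T ⟨φ, h⟩ (i, j) else 0 := fun φ i j => by
    rw [char_gram]
    by_cases hφY : φ ∈ Y
    · simp only [hV, dif_pos hφY, hS', Finset.mul_sum]
      refine Finset.sum_congr rfl fun k _ => ?_
      have : ((√(δ φ) : ℝ) : ℂ) * (√(δ φ) : ℝ) = δ φ := by
        rw [← Complex.ofReal_mul, Real.mul_self_sqrt (hδ0 φ)]
      simp only [star_mul, Complex.star_def, Complex.conj_ofReal]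
      linear_combination (conj (S ⟨φ, hφY⟩ k i) * S ⟨φ, hφY⟩ k j) * this
    · simp [hV, dif_neg hφY]
  have hMT : ∀ i j i' j' : K, i.1 - j.1 = i'.1 - j'.1 → M i j = M i' j' := fun i j i' j' e =>
    eq_of_char fun φ => by
      rw [hM, hM]
      by_cases hφY : φ ∈ Y
      · rw [dif_pos hφY, dif_pos hφY, (hT' _).1.2.1 i j i' j' e]
      · rw [dif_neg hφY, dif_neg hφY]
  let b : (Fin d → ℤ) → A := fun l =>
    if h : ∃ p : K × K, p.1.1 - p.2.1 = l then M h.choose.1 h.choose.2 else 0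
  have hb : ∀ i j : K, b (i.1 - j.1) = M i j := fun i j => by
    have h : ∃ p : K × K, p.1.1 - p.2.1 = i.1 - j.1 := ⟨(i, j), rfl⟩
    simp only [b, dif_pos h]
    exact hMT _ _ _ _ h.choose_spec
  refine ⟨b, fun i hi j hj => ?_, isPos_of_gram V _ fun i j => hb i j⟩
  rw [hb ⟨i, hK hi⟩ ⟨j, hK hj⟩]
  refine eq_of_char fun φ => ?_
  rw [hM]
  by_cases hφY : φ ∈ Y
  · rw [dif_pos hφY, (hT' ⟨φ, hφY⟩).2 (⟨i, hK hi⟩, ⟨j, hK hj⟩) ⟨hi, hj⟩]
    simp only [g]
    rw [← mul_assoc, mul_inv_cancel₀ (hne ⟨φ, hφY⟩), one_mul]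
  · rw [dif_neg hφY]
    have h0 : δ φ = 0 := by
      by_contra hc
      exact hφY hc
    have h1 := hWφ φ ⟨i, hi⟩ ⟨i, hi⟩
    rw [sub_self, hδ, h0] at h1
    have h2 := eq_zero_of_sum_star_mul_self (fun k => φ (W k ⟨i, hi⟩)) (by simpa using h1.symm)
    have h3 := hWφ φ ⟨i, hi⟩ ⟨j, hj⟩
    simp only [h2, star_zero, zero_mul, Finset.sum_const_zero] at h3
    exact h3.symm

end Pool.Agent.Work.MP_05e9ba_an
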