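import Mathlib.Analysis.CStarAlgebra.Classes
import Mathlib.LinearAlgebra.Matrix.ConjTranspose
import Mathlib.Analysis.Complex.Basic

/-!
Definitions for the scalar Toeplitz extension problem.
-/

namespace Pool.Agent.Work.MP_05e9ba_an

open Matrix

/-- A square matrix over a C*-algebra `A` is positive as an element of the C*-algebra `M_n(A)`,
that is, it has the form `B* B` with `B` in `M_n(A)`. -/
def IsPos {A : Type*} [NonUnitalCStarAlgebra A] {n : Type} [Fintype n] (M : Matrix n n A) : Prop :=
  ∃ B : Matrix n n A, M = Bᴴ * B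

/-- The finite set `L` in `Z^d` has the `A`-extension property: whenever the multilevel Toeplitz
matrix `[a (i - j)]`, `i, j` in `L`, is positive and `K` is a finite set containing `L`, there is
`b` agreeing with `a` on `L - L` such that `[b (i - j)]`, `i, j` in `K`, is positive. -/
def ExtensionProperty (A : Type*) [NonUnitalCStarAlgebra A] {d : ℕ}
    (L : Finset (Fin d → ℤ)) : Prop :=
  ∀ a : (Fin d → ℤ) → A, IsPos (Matrix.of fun i j : L => a (i.1 - j.1)) →
    ∀ K : Finset (Fin d → ℤ), L ⊆ K →
      ∃ b : (Fin d → ℤ) → A, (∀ i ∈ L, ∀ j ∈ L, b (i - j) = a (i - j)) ∧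
        IsPos (Matrix.of fun i j : K => b (i.1 - j.1))

/-- `A` has the scalar extension behaviour: for every `d ≥ 1` and every finite `L` in `Z^d`,
`L` has the `ℂ`-extension property if and only if it has the `A`-extension property. -/
def ScalarExtensionBehaviour (A : Type*) [NonUnitalCStarAlgebra A] : Prop :=
  ∀ d : ℕ, 1 ≤ d → ∀ L : Finset (Fin d → ℤ), ExtensionProperty ℂ L ↔ ExtensionProperty A L

end Pool.Agent.Work.MP_05e9ba_an
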