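import Pool.Agent.Work.MP_05e9ba_an.Defs
import Mathlib.Analysis.CStarAlgebra.CStarMatrix
import Mathlib.Analysis.SpecialFunctions.ContinuousFunctionalCalculus.Rpow.Isometric
import Mathlib.Analysis.CStarAlgebra.ContinuousFunctionalCalculus.Order

/-!
Gram matrices over a C*-algebra.
-/

namespace Pool.Agent.Work.MP_05e9ba_an

open Matrix

section Abstract

variable {B : Type*} [NonUnitalCStarAlgebra B] [PartialOrder B] [StarOrderedRing B]

lemma abs_nonneg_iff (b : B) : 0 ≤ b ↔ ∃ c, b = star c * c :=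
  CStarAlgebra.nonneg_iff_eq_star_mul_self

lemma abs_isClosed : IsClosed {b : B | 0 ≤ b} := CStarAlgebra.isClosed_nonneg

lemma abs_sqrt : ∃ s : B → B, ContinuousOn s {b : B | 0 ≤ b} ∧
    ∀ b, 0 ≤ b → b = star (s b) * s b := by
  refine ⟨CFC.sqrt, CFC.continuousOn_sqrt, fun b hb => ?_⟩
  rw [(CFC.sqrt_nonneg b).isSelfAdjoint.star_eq, CFC.sqrt_mul_sqrt_self b hb]

end Abstract

variable {A : Type*} [NonUnitalCStarAlgebra A]

lemma IsPos.exists_gram {n : Type} [Fintype n] {M : Matrix n n A} (h : IsPos M) :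
    ∃ W : n → n → A, ∀ i j, M i j = ∑ k, star (W k i) * W k j := by
  obtain ⟨B, rfl⟩ := h
  exact ⟨fun k i => B k i, fun i j => by simp [Matrix.mul_apply]⟩

lemma isPos_iff_nonneg [PartialOrder A] [StarOrderedRing A] {n : Type} [Fintype n]
    [DecidableEq n] (M : Matrix n n A) : IsPos M ↔ 0 ≤ CStarMatrix.ofMatrix M := by
  rw [abs_nonneg_iff]
  constructor
  · rintro ⟨B, rfl⟩
    exact ⟨CStarMatrix.ofMatrix B, rfl⟩
  · rintro ⟨B, hB⟩
    exact ⟨CStarMatrix.ofMatrix.symm B, hB⟩

lemma IsPos.add {n : Type} [Fintype n] {M N : Matrix n n A} (hM : IsPos M) (hN : IsPos N) :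
    IsPos (M + N) := by
  classical
  let _ : PartialOrder A := CStarAlgebra.spectralOrder A
  have : StarOrderedRing A := CStarAlgebra.spectralOrderedRing A
  rw [isPos_iff_nonneg] at hM hN ⊢
  exact add_nonneg hM hN

lemma isPos_zero {n : Type} [Fintype n] : IsPos (0 : Matrix n n A) := ⟨0, by simp⟩

lemma isPos_sum {n : Type} [Fintype n] {m : Type*} (s : Finset m) (M : m → Matrix n n A)
    (h : ∀ k ∈ s, IsPos (M k)) : IsPos (∑ k ∈ s, M k) := by
  classical
  induction s using Finset.induction_on with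
  | empty => simpa using isPos_zero
  | insert a s ha ih =>
    rw [Finset.sum_insert ha]
    exact (h a (by simp)).add (ih fun k hk => h k (by simp [hk]))

lemma isPos_of_gram {n : Type} [Fintype n] {m : Type*} [Fintype m] (W : m → n → A)
    (M : Matrix n n A) (h : ∀ i j, M i j = ∑ k, star (W k i) * W k j) : IsPos M := by
  classical
  rcases isEmpty_or_nonempty n with hn | ⟨⟨i₀⟩⟩
  · exact ⟨0, by ext i; exact hn.elim i⟩
  have : M = ∑ k, (Matrix.of fun i j => star (W k i) * W k j) := by
    ext i j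
    rw [h i j, Matrix.sum_apply]
    rfl
  rw [this]
  refine isPos_sum _ _ fun k _ => ?_
  refine ⟨Matrix.of fun r i => if r = i₀ then W k i else 0, ?_⟩
  ext i j
  simp only [of_apply, Matrix.mul_apply, conjTranspose_apply]
  rw [Finset.sum_eq_single i₀]
  · simp
  · intro b _ hb
    simp [hb]
  · simp

lemma isClosed_isPos {n : Type} [Fintype n] : IsClosed {M : Matrix n n A | IsPos M} := by
  classical
  let _ : PartialOrder A := CStarAlgebra.spectralOrder A
  have : StarOrderedRing A := CStarAlgebra.spectralOrderedRing A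
  have h := abs_isClosed (B := CStarMatrix n n A)
  have e : {M : Matrix n n A | IsPos M} =
      (CStarMatrix.ofMatrixL : Matrix n n A → CStarMatrix n n A) ⁻¹' {b | 0 ≤ b} := by
    ext M
    exact isPos_iff_nonneg M
  rw [e]
  exact h.preimage CStarMatrix.ofMatrixL.continuous

lemma exists_continuous_sqrt {n : Type} [Fintype n] :
    ∃ s : Matrix n n A → Matrix n n A, ContinuousOn s {M | IsPos M} ∧
      ∀ M, IsPos M → ∀ i j, M i j = ∑ k, star (s M k i) * s M k j := by
  classical
  let _ : PartialOrder A := CStarAlgebra.spectralOrder A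
  have : StarOrderedRing A := CStarAlgebra.spectralOrderedRing A
  obtain ⟨s, hs, hs'⟩ := abs_sqrt (B := CStarMatrix n n A)
  refine ⟨fun M => CStarMatrix.ofMatrixL.symm (s (CStarMatrix.ofMatrixL M)), ?_, ?_⟩
  · refine CStarMatrix.ofMatrixL.symm.continuous.comp_continuousOn ?_
    refine hs.comp CStarMatrix.ofMatrixL.continuous.continuousOn ?_
    intro M hM
    exact (isPos_iff_nonneg M).1 hM
  · intro M hM i j
    have h := hs' _ ((isPos_iff_nonneg M).1 hM)
    have h2 : M i j = (star (s (CStarMatrix.ofMatrix M)) * s (CStarMatrix.ofMatrix M)) i j := by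
      rw [← h]; rfl
    rw [h2, CStarMatrix.mul_apply]
    rfl

/-- A finite sum of terms `x* x` vanishes only if every term vanishes. -/
lemma eq_zero_of_sum_star_mul_self {m : Type*} [Fintype m] (x : m → A)
    (h : ∑ k, star (x k) * x k = 0) (k : m) : x k = 0 := by
  let _ : PartialOrder A := CStarAlgebra.spectralOrder A
  have : StarOrderedRing A := CStarAlgebra.spectralOrderedRing A
  have := (Finset.sum_eq_zero_iff_of_nonneg (fun k _ => star_mul_self_nonneg (x k))).1 h k
    (Finset.mem_univ k)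
  exact (CStarRing.star_mul_self_eq_zero_iff _).1 this

end Pool.Agent.Work.MP_05e9ba_an
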