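import Mathlib.Analysis.CStarAlgebra.GelfandDuality

/-!
Gelfand theory for commutative C*-algebras that need not have a unit.
-/

namespace Pool.Agent.Work.MP_05e9ba_an

open WeakDual Filter Topology Set

variable {A : Type*} [NonUnitalCommCStarAlgebra A]

/-- Extension of a character to the unitization. -/
noncomputable def extChar (φ : characterSpace ℂ A) : characterSpace ℂ (Unitization ℂ A) :=
  CharacterSpace.equivAlgHom.symm (Unitization.lift (CharacterSpace.toNonUnitalAlgHom φ))

lemma extChar_inr (φ : characterSpace ℂ A) (a : A) : extChar φ (a : Unitization ℂ A) = φ a := by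
  simp [extChar]

/-- Restriction of a character of the unitization. -/
noncomputable def resChar (ψ : characterSpace ℂ (Unitization ℂ A)) : WeakDual ℂ A :=
  StrongDual.toWeakDual ((CharacterSpace.toCLM ψ).comp
    ⟨Unitization.inrHom ℂ ℂ A, Unitization.continuous_inr⟩)

lemma resChar_apply (ψ : characterSpace ℂ (Unitization ℂ A)) (a : A) :
    resChar ψ a = ψ (a : Unitization ℂ A) := rfl

lemma continuous_evalChar {B : Type*} [NonUnitalCStarAlgebra B] (a : B) :
    Continuous fun φ : characterSpace ℂ B => φ a :=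
  (eval_continuous a).comp continuous_subtype_val

lemma continuous_resChar : Continuous (resChar (A := A)) :=
  continuous_of_continuous_eval fun a => continuous_evalChar (a : Unitization ℂ A)

lemma resChar_mem {ψ : characterSpace ℂ (Unitization ℂ A)} (h : resChar ψ ≠ 0) :
    resChar ψ ∈ characterSpace ℂ A :=
  ⟨h, fun x y => by simp [resChar_apply]⟩

lemma resChar_extChar (φ : characterSpace ℂ A) : resChar (extChar φ) = φ.1 := by
  apply DFunLike.ext
  intro a
  rw [resChar_apply, extChar_inr]
  rfl

lemma char_star (φ : characterSpace ℂ A) (a : A) : φ (star a) = star (φ a) := by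
  rw [← extChar_inr φ (star a), ← extChar_inr φ a, Unitization.inr_star, map_star]

lemma eq_zero_of_char {a : A} (h : ∀ φ : characterSpace ℂ A, φ a = 0) : a = 0 := by
  apply Unitization.inr_injective (R := ℂ)
  apply (gelfandTransform_bijective (Unitization ℂ A)).1
  ext ψ
  simp only [Unitization.inr_zero, map_zero, ContinuousMap.zero_apply]
  change ψ (a : Unitization ℂ A) = 0
  rw [← resChar_apply]
  by_cases h0 : resChar ψ = 0
  · rw [h0]; rfl
  · exact h ⟨_, resChar_mem h0⟩

lemma eq_of_char {a b : A} (h : ∀ φ : characterSpace ℂ A, φ a = φ b) : a = b :=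
  sub_eq_zero.1 (eq_zero_of_char fun φ => by rw [map_sub, h, sub_self])

lemma isCompact_level (c : A) {ε : ℝ} (hε : 0 < ε) :
    IsCompact {φ : characterSpace ℂ A | ε ≤ ‖φ c‖} := by
  rw [Subtype.isCompact_iff]
  have e : Subtype.val '' {φ : characterSpace ℂ A | ε ≤ ‖φ c‖} =
      resChar '' {ψ : characterSpace ℂ (Unitization ℂ A) | ε ≤ ‖ψ (c : Unitization ℂ A)‖} := by
    ext χ
    constructor
    · rintro ⟨φ, hφ, rfl⟩
      exact ⟨extChar φ, by simpa [extChar_inr] using hφ, resChar_extChar φ⟩
    · rintro ⟨ψ, hψ, rfl⟩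
      have h0 : resChar ψ ≠ 0 := fun h => by
        have h1 : ψ (c : Unitization ℂ A) = 0 := by rw [← resChar_apply, h]; rfl
        simp only [mem_ofPred_eq, h1, norm_zero] at hψ
        linarith
      exact ⟨⟨_, resChar_mem h0⟩, hψ, rfl⟩
  rw [e]
  refine IsCompact.image (IsClosed.isCompact ?_) continuous_resChar
  exact isClosed_le continuous_const (continuous_evalChar _).norm

lemma exists_char_ne_zero (φ : characterSpace ℂ A) : ∃ c : A, φ c = 1 := by
  have : ∃ c : A, φ c ≠ 0 := by
    by_contra h
    push Not at h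
    exact φ.2.1 (DFunLike.ext _ _ h)
  obtain ⟨c, hc⟩ := this
  exact ⟨(φ c)⁻¹ • c, by rw [map_smul, smul_eq_mul, inv_mul_cancel₀ hc]⟩

lemma locallyCompact_char : LocallyCompactSpace (characterSpace ℂ A) := by
  have : WeaklyLocallyCompactSpace (characterSpace ℂ A) := ⟨fun φ => by
    obtain ⟨c, hc⟩ := exists_char_ne_zero φ
    refine ⟨_, isCompact_level c (show (0 : ℝ) < 1 / 2 by norm_num), ?_⟩
    have ho : IsOpen {χ : characterSpace ℂ A | 1 / 2 < ‖χ c‖} :=
      isOpen_lt continuous_const (continuous_evalChar c).norm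
    refine mem_of_superset (ho.mem_nhds ?_) fun χ (hχ : 1 / 2 < ‖χ c‖) => le_of_lt hχ
    simp only [mem_ofPred_eq, hc, norm_one]
    norm_num⟩
  infer_instance

/-- A continuous function on the spectrum dominated by an element comes from the algebra. -/
lemma exists_elem (f : characterSpace ℂ A → ℂ) (hf : Continuous f) (c : A)
    (hc : ∀ ε > 0, ∃ δ > 0, ∀ φ : characterSpace ℂ A, ‖φ c‖ < δ → ‖f φ‖ < ε) :
    ∃ a : A, ∀ φ : characterSpace ℂ A, φ a = f φ := by
  classical
  let F : characterSpace ℂ (Unitization ℂ A) → ℂ := fun ψ =>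
    if h : resChar ψ = 0 then 0 else f ⟨_, resChar_mem h⟩
  have hF : Continuous F := by
    rw [continuous_iff_continuousAt]
    intro ψ
    by_cases h : resChar ψ = 0
    · rw [ContinuousAt, Metric.tendsto_nhds]
      intro ε hε
      obtain ⟨δ, hδ, hδ'⟩ := hc ε hε
      have ho : IsOpen {χ : characterSpace ℂ (Unitization ℂ A) | ‖χ (c : Unitization ℂ A)‖ < δ} :=
        isOpen_lt (continuous_evalChar _).norm continuous_const
      have hm : ψ ∈ {χ : characterSpace ℂ (Unitization ℂ A) | ‖χ (c : Unitization ℂ A)‖ < δ} := by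
        have h1 : ψ (c : Unitization ℂ A) = 0 := by rw [← resChar_apply, h]; rfl
        simpa [h1] using hδ
      filter_upwards [ho.mem_nhds hm] with χ hχ
      have e : F ψ = 0 := dif_pos h
      rw [e, dist_zero_right]
      by_cases h' : resChar χ = 0
      · have e' : F χ = 0 := dif_pos h'
        simpa [e'] using hε
      · have e' : F χ = f ⟨_, resChar_mem h'⟩ := dif_neg h'
        rw [e']
        exact hδ' _ hχ
    · have ho : IsOpen {χ : characterSpace ℂ (Unitization ℂ A) | resChar χ ≠ 0} :=
        isOpen_ne_fun continuous_resChar continuous_const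
      refine ContinuousOn.continuousAt ?_ (ho.mem_nhds h)
      rw [continuousOn_iff_continuous_domRestrict]
      have e : {χ : characterSpace ℂ (Unitization ℂ A) | resChar χ ≠ 0}.domRestrict F =
          fun χ => f ⟨resChar χ.1, resChar_mem χ.2⟩ := by
        funext χ
        exact dif_neg χ.2
      rw [e]
      exact hf.comp ((continuous_resChar.comp continuous_subtype_val).subtype_mk _)
  obtain ⟨z, hz⟩ := (gelfandTransform_bijective (Unitization ℂ A)).2 ⟨F, hF⟩
  have hz' : ∀ ψ : characterSpace ℂ (Unitization ℂ A), ψ z = F ψ := fun ψ =>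
    congrArg (fun g : C(characterSpace ℂ (Unitization ℂ A), ℂ) => g ψ) hz
  let ω : characterSpace ℂ (Unitization ℂ A) :=
    CharacterSpace.equivAlgHom.symm (Unitization.fstHom ℂ A)
  have hω : resChar ω = 0 := by
    apply DFunLike.ext
    intro a
    rw [resChar_apply]
    change _ = (0 : ℂ)
    simp [ω]
  have hz0 : z.fst = 0 := by
    have := hz' ω
    have e : F ω = 0 := dif_pos hω
    rw [e] at this
    simpa [ω] using this
  have hzz : ((z.snd : A) : Unitization ℂ A) = z := by
    ext <;> simp [hz0]
  refine ⟨z.snd, fun φ => ?_⟩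
  rw [← extChar_inr, hzz, hz']
  have h0 : resChar (extChar φ) ≠ 0 := by rw [resChar_extChar]; exact φ.2.1
  have e : F (extChar φ) = f ⟨_, resChar_mem h0⟩ := dif_neg h0
  rw [e]
  congr 1
  exact Subtype.ext (resChar_extChar φ)

end Pool.Agent.Work.MP_05e9ba_an
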