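import Pool.Agent.Work.MP_05e9ba_an.TriExt
import Pool.Agent.Work.MP_05e9ba_an.Spec
import Mathlib.Topology.UrysohnsLemma
import Mathlib.Analysis.Normed.Group.FunctionSeries

/-!
In the commutative case the extension property of the triangle forces the separation condition.
-/

namespace Pool.Agent.Work.MP_05e9ba_an

open WeakDual Filter Topology Set ComplexConjugate

lemma exists_cozero {X : Type*} [TopologicalSpace X] [RegularSpace X] [LocallyCompactSpace X]
    {U : Set X} (hU : IsOpen U) (hσ : IsSigmaCompact U) :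
    ∃ f : X → ℝ, Continuous f ∧ (∀ x, 0 ≤ f x ∧ f x ≤ 1 / 2) ∧ (∀ x ∈ U, f x ≠ 0) ∧
      ∀ x, x ∉ U → f x = 0 := by
  obtain ⟨K, hK, rfl⟩ := hσ
  have : ∀ n, ∃ g : C(X, ℝ), EqOn g 1 (K n) ∧ EqOn g 0 (⋃ n, K n)ᶜ ∧ ∀ x, g x ∈ Icc (0 : ℝ) 1 :=
    fun n => by
      obtain ⟨g, h1, h2, -, h3⟩ := exists_continuous_one_zero_of_isCompact (hK n)
        hU.isClosed_compl (disjoint_compl_right_iff_subset.2 (subset_iUnion K n))
      exact ⟨g, h1, h2, h3⟩
  choose g g1 g0 g01 using this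
  have hs : Summable fun n : ℕ => (1 / 2 : ℝ) / 2 / 2 ^ n := summable_geometric_two' _
  have hb : ∀ n x, ‖(1 / 2 : ℝ) / 2 / 2 ^ n * g n x‖ ≤ (1 / 2 : ℝ) / 2 / 2 ^ n := fun n x => by
    have h0 : (0 : ℝ) ≤ (1 / 2 : ℝ) / 2 / 2 ^ n := by positivity
    rw [Real.norm_eq_abs, abs_of_nonneg (mul_nonneg h0 (g01 n x).1)]
    exact mul_le_of_le_one_right h0 (g01 n x).2
  have hsx : ∀ x, Summable fun n : ℕ => (1 / 2 : ℝ) / 2 / 2 ^ n * g n x := fun x =>
    Summable.of_norm_bounded hs fun n => hb n x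
  have hnn : ∀ x n, 0 ≤ (1 / 2 : ℝ) / 2 / 2 ^ n * g n x := fun x n =>
    mul_nonneg (by positivity) (g01 n x).1
  refine ⟨fun x => ∑' n : ℕ, (1 / 2 : ℝ) / 2 / 2 ^ n * g n x,
    continuous_tsum (fun n => by fun_prop) hs hb, fun x => ⟨tsum_nonneg (hnn x), ?_⟩, ?_, ?_⟩
  · exact ((hsx x).tsum_le_tsum (fun n => (le_abs_self _).trans (hb n x)) hs).trans
      (tsum_geometric_two' (1 / 2 : ℝ)).le
  · intro x hx
    obtain ⟨n, hn⟩ := mem_iUnion.1 hx
    refine ((hsx x).tsum_pos (hnn x) n ?_).ne'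
    rw [g1 n hn]
    simp only [Pi.one_apply, mul_one]
    positivity
  · intro x hx
    simp [fun n => g0 n hx]

/-- Linear relations between three vectors only depend on their Gram matrix. -/
lemma relation_of_gram {m m' : Type} [Fintype m] [Fintype m'] (x : Fin 3 → m → ℂ)
    (W : m' → Fin 3 → ℂ) (h : ∀ i j, ip (x i) (x j) = ∑ k, star (W k i) * W k j)
    (s : Fin 3 → ℂ) (hs : ∀ k, ∑ i, W k i * s i = 0) (r : m) : ∑ i, x i r * s i = 0 := by
  refine eq_zero_of_sum_star_mul_self (fun r => ∑ i, x i r * s i) ?_ r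
  have e1 : ∑ r, star (∑ i, x i r * s i) * ∑ i, x i r * s i =
      ∑ i, ∑ j, star (s i) * s j * ip (x i) (x j) := by
    simp only [ip, Fin.sum_univ_three, Finset.mul_sum, ← Finset.sum_add_distrib, star_add,
      star_mul]
    refine Finset.sum_congr rfl fun r _ => ?_
    ring
  have e2 : ∑ k, star (∑ i, W k i * s i) * ∑ i, W k i * s i =
      ∑ i, ∑ j, star (s i) * s j * ∑ k, star (W k i) * W k j := by
    simp only [Fin.sum_univ_three, Finset.mul_sum, ← Finset.sum_add_distrib, star_add,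
      star_mul]
    refine Finset.sum_congr rfl fun r _ => ?_
    ring
  rw [e1]
  simp only [h]
  rw [← e2]
  simp [hs]

lemma scalar_relation {m : Type} [Fintype m] (x0 x1 x2 x3 x4 : m → ℂ) (c b : ℂ) (α : ℝ)
    (hα : α ≠ 0) (W : Fin 2 → Fin 3 → ℂ) (hW : W = ![![c, α * c, 0], ![0, b * c, c]])
    (H1 : ∀ i j, ip (![x0, x1, x2] i) (![x0, x1, x2] j) = ∑ k, star (W k i) * W k j)
    (H2 : ∀ i j, ip (![x2, x3, x4] i) (![x2, x3, x4] j) = ∑ k, star (W k i) * W k j)
    (H3 : ip x1 x3 = ∑ k, star (W k 0) * W k 2) :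
    b * ip x0 x4 + conj b * (conj c * c) = 0 := by
  have hs : ∀ k, ∑ i, W k i * ![(α : ℂ), -1, b] i = 0 := fun k => by
    subst hW
    fin_cases k <;> simp [Fin.sum_univ_three] <;> ring
  have r1 := relation_of_gram _ W H1 _ hs
  have r2 := relation_of_gram _ W H2 _ hs
  have s1 : ∀ r, x1 r = x0 r * α + x2 r * b := fun r => by
    have := r1 r
    simp [Fin.sum_univ_three] at this
    linear_combination -this
  have s3 : ∀ r, x3 r = x2 r * α + x4 r * b := fun r => by
    have := r2 r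
    simp [Fin.sum_univ_three] at this
    linear_combination -this
  have k02 : ip x0 x2 = 0 := by
    have : ip x0 x2 = _ := H1 0 2
    rw [this, hW]; simp
  have k24 : ip x2 x4 = 0 := by
    have : ip x2 x4 = _ := H2 0 2
    rw [this, hW]; simp
  have k22 : ip x2 x2 = conj c * c := by
    have : ip x2 x2 = _ := H2 0 0
    rw [this, hW]; simp
  have k13 : ip x1 x3 = 0 := by
    rw [H3, hW]; simp
  have e : ip x1 x3 = α * α * ip x0 x2 + α * b * ip x0 x4 + conj b * α * ip x2 x2 +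
      conj b * b * ip x2 x4 := by
    simp only [ip, s1, s3, Finset.mul_sum, ← Finset.sum_add_distrib, star_add, star_mul,
      Complex.star_def, Complex.conj_ofReal]
    refine Finset.sum_congr rfl fun r _ => ?_
    ring
  rw [k13, k02, k24, k22] at e
  have hα' : (α : ℂ) ≠ 0 := by exact_mod_cast hα
  apply mul_left_cancel₀ hα'
  linear_combination -e

variable {A : Type*} [NonUnitalCommCStarAlgebra A]

lemma exists_elem_mul (f : characterSpace ℂ A → ℂ) (hf : Continuous f) (hb : ∀ φ, ‖f φ‖ ≤ 1)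
    (c : A) : ∃ a : A, ∀ φ : characterSpace ℂ A, φ a = f φ * φ c := by
  refine exists_elem _ (hf.mul (continuous_evalChar c)) c fun ε hε => ⟨ε, hε, fun φ h => ?_⟩
  calc ‖f φ * φ c‖ ≤ 1 * ‖φ c‖ := by rw [norm_mul]; gcongr; exact hb φ
    _ < ε := by rwa [one_mul]

lemma char_gram (φ : characterSpace ℂ A) {m : Type*} [Fintype m] (x y : m → A) :
    φ (∑ k, star (x k) * y k) = ∑ k, star (φ (x k)) * φ (y k) := by
  simp only [map_sum, map_mul, char_star]

lemma char_ip (φ : characterSpace ℂ A) {m : Type} [Fintype m] (x y : m → A) :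
    ip (fun r => φ (x r)) (fun r => φ (y r)) = φ (ip x y) := (char_gram φ x y).symm

lemma sep_of_ext (hA : ExtensionProperty A Ltri) (U V : Set (characterSpace ℂ A))
    (hU : IsOpen U) (hV : IsOpen V) (hU' : IsSigmaCompact U) (hV' : IsSigmaCompact V)
    (hUV : Disjoint U V) : Disjoint (closure U) (closure V) := by
  have := locallyCompact_char (A := A)
  rw [Set.disjoint_left]
  intro φ₀ h1 h2
  obtain ⟨f, hf, f01, fU, fU'⟩ := exists_cozero hU hU'
  obtain ⟨g, hg, g01, gV, gV'⟩ := exists_cozero hV hV'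
  obtain ⟨c, hc⟩ := exists_char_ne_zero φ₀
  let β : characterSpace ℂ A → ℂ := fun φ => (f φ : ℂ) + (g φ : ℂ) * Complex.I
  let α : characterSpace ℂ A → ℝ := fun φ => √(1 - f φ ^ 2 - g φ ^ 2)
  have hpos : ∀ φ, 0 < 1 - f φ ^ 2 - g φ ^ 2 := fun φ => by nlinarith [f01 φ, g01 φ]
  have hα2 : ∀ φ, α φ ^ 2 = 1 - f φ ^ 2 - g φ ^ 2 := fun φ => Real.sq_sqrt (hpos φ).le
  have hα0 : ∀ φ, 0 < α φ := fun φ => Real.sqrt_pos.2 (hpos φ)
  have hβ2 : ∀ φ, conj (β φ) * β φ = ((f φ ^ 2 + g φ ^ 2 : ℝ) : ℂ) := fun φ => by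
    rw [← Complex.normSq_eq_conj_mul_self, Complex.normSq_add_mul_I]
  obtain ⟨e₁, he₁⟩ := exists_elem_mul (fun φ => (α φ : ℂ)) (by fun_prop) (fun φ => by
    rw [Complex.norm_real, Real.norm_eq_abs, abs_of_pos (hα0 φ)]
    nlinarith [hα2 φ, hα0 φ, sq_nonneg (f φ), sq_nonneg (g φ)]) c
  obtain ⟨e₂, he₂⟩ := exists_elem_mul β (by fun_prop) (fun φ => by
    rw [Complex.norm_add_mul_I]
    exact Real.sqrt_le_one.2 (by linarith [hpos φ])) c
  let W : Fin 2 → Fin 3 → A := ![![c, e₁, 0], ![0, e₂, c]]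
  have hWφ : ∀ φ : characterSpace ℂ A, (fun k i => φ (W k i)) =
      ![![φ c, α φ * φ c, 0], ![0, β φ * φ c, φ c]] := fun φ => by
    funext k i
    fin_cases k <;> fin_cases i <;> simp [W, he₁, he₂]
  obtain ⟨x0, x1, x2, x3, x4, H1, H2, H3, -⟩ := triExt hA W
    (fun i j => ∑ k, star (W k i) * W k j) (fun _ _ => rfl)
    (eq_of_char fun φ => by
      rw [char_gram, char_gram]
      have a1 : ((α φ : ℂ)) ^ 2 = 1 - (f φ : ℂ) ^ 2 - (g φ : ℂ) ^ 2 := by exact_mod_cast hα2 φ
      have a2 := hβ2 φ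
      push_cast at a2
      simp [W, he₁, he₂]
      linear_combination (conj (φ c) * φ c) * a1 + (conj (φ c) * φ c) * a2)
    (by simp [W])
  have key : ∀ φ : characterSpace ℂ A,
      β φ * φ (ip x0 x4) + conj (β φ) * (conj (φ c) * φ c) = 0 := fun φ => by
    rw [← char_ip]
    refine scalar_relation _ (fun r => φ (x1 r)) (fun r => φ (x2 r)) (fun r => φ (x3 r)) _ _ _
      (α φ) (hα0 φ).ne' _ (hWφ φ) (fun i j => ?_) (fun i j => ?_) ?_
    · rw [← char_gram, ← H1, ← char_ip]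
      fin_cases i <;> fin_cases j <;> rfl
    · rw [← char_gram, ← H2, ← char_ip]
      fin_cases i <;> fin_cases j <;> rfl
    · rw [← char_gram, char_ip, H3]
  have cU : IsClosed {φ : characterSpace ℂ A | φ (ip x0 x4) + conj (φ c) * φ c = 0} :=
    isClosed_eq ((continuous_evalChar _).add
      ((Complex.continuous_conj.comp (continuous_evalChar c)).mul (continuous_evalChar c)))
      continuous_const
  have cV : IsClosed {φ : characterSpace ℂ A | φ (ip x0 x4) - conj (φ c) * φ c = 0} :=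
    isClosed_eq ((continuous_evalChar _).sub
      ((Complex.continuous_conj.comp (continuous_evalChar c)).mul (continuous_evalChar c)))
      continuous_const
  have k1 := closure_minimal (s := U) (fun φ hφ => by
    have hk := key φ
    have g0 : g φ = 0 := gV' φ (Set.disjoint_left.1 hUV hφ)
    have f0 : (f φ : ℂ) ≠ 0 := by exact_mod_cast fU φ hφ
    simp only [β, g0, Complex.ofReal_zero, zero_mul, add_zero, Complex.conj_ofReal] at hk
    apply mul_left_cancel₀ f0
    linear_combination hk) cU h1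
  have k2 := closure_minimal (s := V) (fun φ hφ => by
    have hk := key φ
    have f0 : f φ = 0 := fU' φ (Set.disjoint_right.1 hUV hφ)
    have g0 : (g φ : ℂ) * Complex.I ≠ 0 :=
      mul_ne_zero (by exact_mod_cast gV φ hφ) Complex.I_ne_zero
    simp only [β, f0, Complex.ofReal_zero, zero_add, map_mul, Complex.conj_ofReal,
      Complex.conj_I] at hk
    apply mul_left_cancel₀ g0
    linear_combination hk) cV h2
  simp only [mem_ofPred_eq, hc, map_one, mul_one] at k1 k2
  have : (2 : ℂ) = 0 := by linear_combination k1 - k2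
  norm_num at this

end Pool.Agent.Work.MP_05e9ba_an
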