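import Pool.Agent.Work.MP_05e9ba_an.Gram

/-!
The triangle `{0, e1, e2}` in `Z^2` and what its extension property gives.
-/

namespace Pool.Agent.Work.MP_05e9ba_an

open Matrix

/-- The three points of the triangle. -/
def p3 : Fin 3 → (Fin 2 → ℤ) := ![![0, 0], ![1, 0], ![0, 1]]

/-- Five points containing the triangle. -/
def p5 : Fin 5 → (Fin 2 → ℤ) := ![![0, 0], ![1, 0], ![0, 1], ![1, 1], ![0, 2]]

/-- The triangle. -/
def Ltri : Finset (Fin 2 → ℤ) := Finset.univ.image p3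

/-- The five point set. -/
def Kfive : Finset (Fin 2 → ℤ) := Finset.univ.image p5

variable {A : Type*} [NonUnitalCStarAlgebra A]

/-- The algebra valued inner product of two columns. -/
noncomputable def ip {m : Type} [Fintype m] (x y : m → A) : A := ∑ r, star (x r) * y r

omit [NonUnitalCStarAlgebra A] in
lemma exists_data (G : Fin 3 → Fin 3 → A) (h1 : G 1 1 = G 0 0) (h2 : G 2 2 = G 0 0) :
    ∃ a : (Fin 2 → ℤ) → A, ∀ i j, a (p3 i - p3 j) = G i j := by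
  refine ⟨fun l => if l 0 = -1 ∧ l 1 = 0 then G 0 1 else if l 0 = 1 ∧ l 1 = 0 then G 1 0
    else if l 0 = 0 ∧ l 1 = -1 then G 0 2 else if l 0 = 0 ∧ l 1 = 1 then G 2 0
    else if l 0 = 1 ∧ l 1 = -1 then G 1 2 else if l 0 = -1 ∧ l 1 = 1 then G 2 1
    else G 0 0, fun i j => ?_⟩
  fin_cases i <;> fin_cases j <;> simp [p3, h1, h2]

lemma Ltri_subset : Ltri ⊆ Kfive := by decide

lemma p3_mem (i : Fin 3) : p3 i ∈ Ltri := Finset.mem_image_of_mem _ (Finset.mem_univ i)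

lemma p5_mem (i : Fin 5) : p5 i ∈ Kfive := Finset.mem_image_of_mem _ (Finset.mem_univ i)

lemma isPos_tri {m : Type*} [Fintype m] (W : m → Fin 3 → A) (a : (Fin 2 → ℤ) → A)
    (ha : ∀ i j, a (p3 i - p3 j) = ∑ k, star (W k i) * W k j) :
    IsPos (Matrix.of fun i j : Ltri => a (i.1 - j.1)) := by
  have : ∀ i : Ltri, ∃ s : Fin 3, p3 s = i.1 := fun i => by
    obtain ⟨s, -, hs⟩ := Finset.mem_image.1 i.2
    exact ⟨s, hs⟩
  choose s hs using this
  refine isPos_of_gram (fun k i => W k (s i)) _ fun i j => ?_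
  rw [Matrix.of_apply, ← hs i, ← hs j, ha]

lemma triExt (h : ExtensionProperty A Ltri) {m : Type*} [Fintype m] (W : m → Fin 3 → A)
    (G : Fin 3 → Fin 3 → A) (hG : ∀ i j, G i j = ∑ k, star (W k i) * W k j)
    (h1 : G 1 1 = G 0 0) (h2 : G 2 2 = G 0 0) :
    ∃ x0 x1 x2 x3 x4 : Kfive → A,
      (∀ i j, ip (![x0, x1, x2] i) (![x0, x1, x2] j) = G i j) ∧
      (∀ i j, ip (![x2, x3, x4] i) (![x2, x3, x4] j) = G i j) ∧
      ip x1 x3 = G 0 2 ∧ ip x3 x1 = G 2 0 := by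
  obtain ⟨a, ha⟩ := exists_data G h1 h2
  obtain ⟨b, hb, hpos⟩ := h a (isPos_tri W a fun i j => by rw [ha, hG]) Kfive Ltri_subset
  obtain ⟨V, hV⟩ := hpos.exists_gram
  have hb' : ∀ i j, b (p3 i - p3 j) = G i j := fun i j => by
    rw [hb _ (p3_mem i) _ (p3_mem j), ha]
  let x : Fin 5 → Kfive → A := fun i r => V r ⟨p5 i, p5_mem i⟩
  have hx : ∀ i j, ip (x i) (x j) = b (p5 i - p5 j) := fun i j =>
    (hV ⟨p5 i, p5_mem i⟩ ⟨p5 j, p5_mem j⟩).symm
  refine ⟨x 0, x 1, x 2, x 3, x 4, fun i j => ?_, fun i j => ?_, ?_, ?_⟩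
  · rw [← hb']
    fin_cases i <;> fin_cases j <;> exact hx _ _
  · rw [← hb']
    have e : ∀ i j : Fin 3, p3 i - p3 j = p5 (![2, 3, 4] i) - p5 (![2, 3, 4] j) := by decide
    rw [e, ← hx]
    fin_cases i <;> fin_cases j <;> rfl
  · rw [hx, ← hb']
    congr 1
    decide
  · rw [hx, ← hb']
    congr 1
    decide

end Pool.Agent.Work.MP_05e9ba_an
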